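import Pool.Agent.H18.PB.Three
set_option autoImplicit false

/-! The two profiles. -/

namespace Pool.Agent.H18.PB

open Complex Set Filter
open scoped Topology ComplexConjugate

/-- the hard side -/
theorem hard {κ : ℝ} (hκ : 0 < κ) (hκ' : κ ≤ 1/8) : ∃ p : Prof ((1+κ)/4), p.s = 1 := by
  have hκC : (κ:ℂ) ≠ 0 := by exact_mod_cast hκ.ne'
  set T : ℝ := (κ/4)^(-(4/κ)) with hTdef
  have hT : 1 < T := Real.one_lt_rpow_of_pos_of_lt_one_of_neg (by positivity) (by linarith)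
    (by have : 0 < 4/κ := by positivity
        linarith)
  have hT0 : 0 < T := by linarith
  have hTv : T^(-(κ/4)) = κ/4 := by
    rw [hTdef, ← Real.rpow_mul (by positivity), show -(4/κ) * -(κ/4) = 1 by field_simp,
      Real.rpow_one]
  have hTC : (T:ℂ) ≠ 0 := by exact_mod_cast hT0.ne'
  set v : ℝ → ℝ := fun τ => τ^(-(κ/4)) with hv
  have vm : Measurable v := measurable_id.pow_const _
  have vmC : Measurable (fun τ => ((v τ : ℝ) : ℂ)) := Complex.measurable_ofReal.comp vm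
  have dv : ∀ τ : ℝ, 0 < τ → HasDerivAt (fun τ => ((v τ : ℝ) : ℂ)) (-(κ/4)*v τ/τ) τ := by
    intro τ hτ
    have h := d_rp hτ (-(κ/4))
    refine h.congr_deriv ?_
    have hτC : (τ:ℂ) ≠ 0 := by exact_mod_cast hτ.ne'
    rw [Real.rpow_sub_one hτ.ne']
    simp only [hv]; push_cast; ring
  refine mkProf (α := (1+κ)/4) (s := 1) (T := T) (by positivity) (by linarith) (Or.inl rfl) hT
    ((-1+8*I)/13) ?_ (fun τ => ((τ^(1/4:ℝ) : ℝ) : ℂ)*exp ((2*I/κ)*(1-v τ)))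
    (fun τ => -κ/2 + I*v τ) (fun τ => I*(-(κ/4)*v τ/τ)) ?_ ?_ ?_ ?_ ?_ ?_ ?_ ?_
    (T*(κ/4 - (κ/8)*I)) ?_ ?_ ?_ ?_
  · intro h
    have := congrArg Complex.im h
    simp at this
  · exact (Complex.measurable_ofReal.comp (measurable_id.pow_const _)).mul (by fun_prop)
  · fun_prop
  · fun_prop
  · intro τ hτ
    have hτC : (τ:ℂ) ≠ 0 := by exact_mod_cast hτ.ne'
    have h1 := (d_rp hτ (1/4:ℝ)).mul ((((dv τ hτ).const_sub (1:ℂ)).const_mul (2*I/κ)).cexp)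
    refine h1.congr_deriv ?_
    rw [Real.rpow_sub_one hτ.ne']
    push_cast
    field_simp
    ring
  · intro τ hτ
    exact ((dv τ hτ).const_mul I).const_add (-(κ:ℂ)/2)
  · intro τ hτ
    have hτ0 : (0:ℝ) < τ := hτ
    have hτC : (τ:ℂ) ≠ 0 := by exact_mod_cast hτ0.ne'
    apply ContinuousAt.continuousWithinAt
    have a := (dv τ hτ0).continuousAt
    have d : ContinuousAt (fun τ : ℝ => (τ:ℂ)) τ := Complex.continuous_ofReal.continuousAt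
    exact continuousAt_const.mul ((continuousAt_const.mul a).div d hτC)
  · intro τ hτ
    have : ((τ^(1/4:ℝ) : ℝ) : ℂ) ≠ 0 := by exact_mod_cast (Real.rpow_pos_of_pos hτ _).ne'
    exact mul_ne_zero this (exp_ne_zero _)
  · have e : (1 + (-1+8*I)/13 : ℂ) ≠ 0 := by
      intro h
      have := congrArg Complex.im h
      simp at this
    have hv1 : v 1 = 1 := by simp [hv]
    rw [hv1, eq_sub_iff_add_eq, eq_div_iff e]
    push_cast
    linear_combination (8/13:ℂ)*I_sq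
  · have : v T = κ/4 := hTv
    simp only [this]
    push_cast; field_simp; ring
  · intro τ hτ
    have hτ0 := hτ.1
    simp only [mul_re, sub_re, sub_im, conj_re, conj_im, ofReal_re, ofReal_im, neg_re, neg_im,
      mul_im, div_ofNat_re, div_ofNat_im, add_re, add_im, I_re, I_im, one_re, one_im, re_ofNat,
      im_ofNat, ofReal_one]
    norm_num
    nlinarith
  · intro τ hτ
    have hτ1 := hτ.1
    have hτ0 : 0 < τ := by linarith
    have hτC : (τ:ℂ) ≠ 0 := by exact_mod_cast hτ0.ne'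
    have e1 : (2*τ*(I*(-(κ/4)*v τ/τ)) : ℂ) = -(κ/2)*v τ*I := by field_simp; ring
    have e2 : ((-κ/2 + I*v τ + 2*(((1+κ)/4 : ℝ):ℂ))*(-κ/2 + I*v τ + 2*(((1+κ)/4 : ℝ):ℂ) - 1) : ℂ)
        = ((-(v τ)^2 - 1/4 : ℝ):ℂ) := by
      push_cast; linear_combination (v τ:ℂ)^2*I_sq
    rw [e1, e2]
    simp only [mul_re, sub_re, sub_im, conj_re, conj_im, ofReal_re, ofReal_im, neg_re, neg_im,
      mul_im, div_ofNat_re, div_ofNat_im, add_re, add_im, I_re, I_im, one_re, one_im, re_ofNat,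
      im_ofNat, ofReal_one]
    ring_nf
    positivity
  · intro l hl
    obtain ⟨hl0, hl1⟩ := hl
    set m : ℝ := T*l with hm
    have hm0 : 0 ≤ m := by positivity
    have hm1 : m ≤ 1 := by
      calc T*l ≤ T*T⁻¹ := mul_le_mul_of_nonneg_left hl1 hT0.le
        _ = 1 := mul_inv_cancel₀ hT0.ne'
    have e : (-((1:ℝ):ℂ)*(T*(κ/4 - (κ/8)*I))*conj (2*(((1+κ)/4 : ℝ):ℂ)*(2*(((1+κ)/4 : ℝ):ℂ)-1)
        + ((6-8*((1+κ)/4) : ℝ):ℂ)*(T*(κ/4 - (κ/8)*I))*((l:ℝ):ℂ)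
        + 4*(T*(κ/4 - (κ/8)*I))^2*((l:ℝ):ℂ)^2)) =
        -(T:ℂ)*((κ/4 - (κ/8)*I)*conj (((-(1-κ^2)/4 : ℝ):ℂ) + ((4-2*κ : ℝ):ℂ)*(κ/4 - (κ/8)*I)*((m:ℝ):ℂ)
        + 4*(κ/4 - (κ/8)*I)^2*((m:ℝ):ℂ)^2)) := by
      have : (2*(((1+κ)/4 : ℝ):ℂ)*(2*(((1+κ)/4 : ℝ):ℂ)-1)
        + ((6-8*((1+κ)/4) : ℝ):ℂ)*(T*(κ/4 - (κ/8)*I))*((l:ℝ):ℂ)
        + 4*(T*(κ/4 - (κ/8)*I))^2*((l:ℝ):ℂ)^2) = (((-(1-κ^2)/4 : ℝ):ℂ)
        + ((4-2*κ : ℝ):ℂ)*(κ/4 - (κ/8)*I)*((m:ℝ):ℂ)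
        + 4*(κ/4 - (κ/8)*I)^2*((m:ℝ):ℂ)^2) := by
        rw [hm]; push_cast; ring
      rw [this]; push_cast; ring
    rw [e]
    have e3 : ((κ/4 - (κ/8)*I)*conj (((-(1-κ^2)/4 : ℝ):ℂ) + ((4-2*κ : ℝ):ℂ)*(κ/4 - (κ/8)*I)*((m:ℝ):ℂ)
        + 4*(κ/4 - (κ/8)*I)^2*((m:ℝ):ℂ)^2) : ℂ).re =
        -(κ*(1-κ^2)/16) + (4-2*κ)*(5*κ^2/64)*m + (5*κ^3/64)*m^2 := by
      simp only [mul_re, sub_re, sub_im, conj_re, conj_im, ofReal_re, ofReal_im,
        mul_im, div_ofNat_re, div_ofNat_im, add_re, add_im, I_re, I_im, re_ofNat,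
        im_ofNat, pow_two]
      ring
    rw [neg_mul, neg_re, re_ofReal_mul, e3, neg_pos]
    apply mul_neg_of_pos_of_neg hT0
    have a0 : κ^2 ≤ κ/8 := by nlinarith
    have a1 : (4-2*κ)*(5*κ^2/64)*m ≤ 4*(5*(κ/8)/64)*1 := by
      have : 0 ≤ 4-2*κ := by linarith
      gcongr
      linarith
    have a2 : κ^3 ≤ κ/64 := by nlinarith
    have a3 : (5*κ^3/64)*m^2 ≤ (5*(κ/64)/64)*1 := by
      have : m^2 ≤ 1 := by nlinarith
      gcongr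
    nlinarith

/-- the easy side -/
theorem easy {κ : ℝ} (hκ : 0 < κ) (hκ' : κ ≤ 1/8) : ∃ p : Prof ((1+κ)/4), p.s = -1 := by
  set A : ℝ := (1-κ^2)/8 with hA
  have hκ2 : κ^2 ≤ 1/64 := by nlinarith
  have hA1 : 63/512 ≤ A := by rw [hA]; linarith
  have hA2 : A ≤ 1/8 := by rw [hA]; nlinarith
  -- `B = r + i u`
  set r : ℝ := -(21/82) - κ/2 - A with hr
  set u : ℝ := 8/41 with hu
  refine mkProf (α := (1+κ)/4) (s := -1) (T := 8) (by positivity) (by linarith) (Or.inr rfl)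
    (by norm_num)
    ((1+I)/8) ?_ (fun τ => ((τ^((A+(1+κ)/2)/2:ℝ) : ℝ) : ℂ)*exp (-((r+u*I)/2)*(τ⁻¹:ℝ)))
    (fun τ => A + (r+u*I)*(τ⁻¹:ℝ)) (fun τ => (r+u*I)*(-((τ⁻¹:ℝ):ℂ)^2)) ?_ ?_ ?_ ?_ ?_ ?_ ?_ ?_
    (-4*(A+(r+u*I)/8)) ?_ ?_ ?_ ?_
  · intro h
    have := congrArg Complex.im h
    simp at this
  · exact (Complex.measurable_ofReal.comp (measurable_id.pow_const _)).mul (by fun_prop)
  · fun_prop
  · fun_prop
  · intro τ hτ
    have hτC : (τ:ℂ) ≠ 0 := by exact_mod_cast hτ.ne'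
    have h1 := (d_rp hτ ((A+(1+κ)/2)/2:ℝ)).mul (d_exp hτ (-((r+u*I)/2)))
    refine h1.congr_deriv ?_
    rw [Real.rpow_sub_one hτ.ne']
    push_cast
    field_simp
    ring
  · intro τ hτ
    exact ((d_inv hτ).const_mul (r+u*I : ℂ)).const_add (A:ℂ)
  · intro τ hτ
    have hτ0 : (0:ℝ) < τ := hτ
    apply ContinuousAt.continuousWithinAt
    have a := (d_inv hτ0).continuousAt
    exact continuousAt_const.mul (a.pow 2).neg
  · intro τ hτ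
    have : ((τ^((A+(1+κ)/2)/2:ℝ) : ℝ) : ℂ) ≠ 0 := by exact_mod_cast (Real.rpow_pos_of_pos hτ _).ne'
    exact mul_ne_zero this (exp_ne_zero _)
  · have e : (1 + (1+I)/8 : ℂ) ≠ 0 := by
      intro h
      have := congrArg Complex.im h
      simp at this
    rw [eq_sub_iff_add_eq, eq_div_iff e, hr, hu]
    push_cast
    linear_combination (1/41:ℂ)*I_sq
  · push_cast; ring
  · intro τ hτ
    obtain ⟨hτ0, hτ1⟩ := hτ
    have : ((-((-1:ℝ):ℂ)*(((1+κ)/4 : ℝ)-(1-((1+κ)/4 : ℝ))*((1+I)/8)*τ)*conj (2*((1+I)/8))).re : ℝ)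
        = ((1+κ)/4)/4 - (1-(1+κ)/4)*τ/16 := by
      simp only [mul_re, sub_re, sub_im, conj_re, conj_im, ofReal_re, ofReal_im, neg_re, neg_im,
        mul_im, div_ofNat_re, div_ofNat_im, add_re, add_im, I_re, I_im, one_re, one_im, re_ofNat,
        im_ofNat]
      ring
    rw [this]
    nlinarith
  · intro τ hτ
    have hτ1 := hτ.1
    have hτ0 : 0 < τ := by linarith
    have hτC : (τ:ℂ) ≠ 0 := by exact_mod_cast hτ0.ne'
    set l : ℝ := τ⁻¹ with hl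
    have hl0 : 0 < l := by positivity
    have hl1 : l ≤ 1 := inv_le_one_of_one_le₀ hτ1
    have hτl : (τ:ℂ)*(l:ℂ) = 1 := by
      rw [← ofReal_mul, hl, mul_inv_cancel₀ hτ0.ne', ofReal_one]
    have e1 : (2*τ*((r+u*I)*(-((l:ℝ):ℂ)^2)) : ℂ) = -2*((r+u*I)*l) := by
      linear_combination (-2*(r+u*I)*l : ℂ)*hτl
    rw [e1]
    have e2 : ((((-1:ℝ):ℂ)*(A+(r+u*I)*(l:ℝ))*τ*conj (2*(-2*((r+u*I)*l) +
        ((A+(r+u*I)*(l:ℝ))+2*(((1+κ)/4 : ℝ):ℂ))*((A+(r+u*I)*(l:ℝ))+2*(((1+κ)/4 : ℝ):ℂ)-1)))).re : ℝ)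
        = 2*τ*(((A+r*l)^2+(u*l)^2)*(2-κ-(A+r*l))) := by
      have f1 : ((r+u*I)*(l:ℝ) : ℂ) = ((A+r*l-A : ℝ):ℂ) + ((u*l : ℝ):ℂ)*I := by push_cast; ring
      have f2 : (A+(r+u*I)*(l:ℝ) : ℂ) = ((A+r*l : ℝ):ℂ) + ((u*l : ℝ):ℂ)*I := by push_cast; ring
      rw [f2, f1]
      generalize A+r*l = X
      generalize u*l = Y
      simp only [mul_re, sub_re, sub_im, conj_re, conj_im, ofReal_re, ofReal_im, neg_re, neg_im,
        mul_im, div_ofNat_re, div_ofNat_im, add_re, add_im, I_re, I_im, one_re, one_im, re_ofNat,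
        im_ofNat]
      rw [hA]
      ring
    rw [e2]
    have hr0 : r ≤ 0 := by rw [hr]; linarith
    have h1 : A + r*l ≤ 1/8 := by nlinarith
    have h2 : 0 < (A+r*l)^2+(u*l)^2 := by
      have : 0 < (u*l)^2 := by positivity
      positivity
    have h3 : 0 < 2-κ-(A+r*l) := by linarith
    positivity
  · intro l hl
    obtain ⟨hl0, hl1⟩ := hl
    have hl2 : l ≤ 1/8 := by simpa using hl1
    set X : ℝ := A + r/8 with hX
    set Y : ℝ := u/8 with hY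
    have e : ((-((-1:ℝ):ℂ)*(-4*(A+(r+u*I)/8))*conj (2*(((1+κ)/4 : ℝ):ℂ)*(2*(((1+κ)/4 : ℝ):ℂ)-1)
        + ((6-8*((1+κ)/4) : ℝ):ℂ)*(-4*(A+(r+u*I)/8))*((l:ℝ):ℂ)
        + 4*(-4*(A+(r+u*I)/8))^2*((l:ℝ):ℂ)^2)).re : ℝ)
        = (1-κ^2)*X + 16*(X^2+Y^2)*l*((4-2*κ)-16*X*l) := by
      have e0 : ((A:ℂ)+(r+u*I)/8) = X + Y*I := by rw [hX, hY]; push_cast; ring
      rw [e0]
      simp only [mul_re, sub_re, sub_im, conj_re, conj_im, ofReal_re, ofReal_im, neg_re, neg_im,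
        mul_im, div_ofNat_re, div_ofNat_im, add_re, add_im, I_re, I_im, one_re, one_im, re_ofNat,
        im_ofNat, pow_two]
      ring
    rw [e]
    have hX0 : 0 < X := by rw [hX, hr]; linarith
    have hX1 : X ≤ 1/8 := by
      have hr0 : r ≤ 0 := by rw [hr]; linarith
      rw [hX]; linarith
    have h1 : 0 < (1-κ^2)*X := mul_pos (by linarith) hX0
    have h2 : 0 ≤ (4-2*κ)-16*X*l := by nlinarith
    positivity

end Pool.Agent.H18.PB
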