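import Pool.Graph.R_seed8.W787.PEint
set_option autoImplicit false

/-! Integrability near the singular point for all exponents, and integration by parts with
countably many bad points. Adapted from the library modules PEint and PEfour. -/

namespace Pool.Agent.H18.PB

open MeasureTheory Complex Set
open Pool.Agent.W787.PE

noncomputable def GG (s : ℝ) (z : ℝ × ℝ) : ℝ := |z.1|^(-(2*s/3) : ℝ) * |z.2|^(-(2*s/3) : ℝ)

lemma GG_nonneg (s : ℝ) (z : ℝ × ℝ) : 0 ≤ GG s z := by unfold GG; positivity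

lemma GG_int {s : ℝ} (hs : s < 3/2) : IntegrableOn (GG s) (Icc (-2) 2 ×ˢ Icc (-2) 2) := by
  have h1 := abs_rpow_int (-(2*s/3)) (by linarith)
  have := Integrable.mul_prod (μ := volume.restrict (Icc (-2:ℝ) 2)) (ν := volume.restrict (Icc (-2:ℝ) 2))
    h1 h1
  rw [Measure.prod_restrict] at this
  exact this

lemma r_le_GG {s x t : ℝ} (hs : 0 ≤ s) (hx : x ≠ 0) (ht : t ≠ 0) :
    (x^2+|t|)^(-s : ℝ) ≤ GG s (x, t) := by
  have hx2 : 0 < x^2 := by positivity
  have ht2 : 0 < |t| := abs_pos.mpr ht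
  have hr : 0 < x^2+|t| := by positivity
  have e1 : (x^2+|t|)^(-s : ℝ) = (x^2+|t|)^(-(s/3) : ℝ)*(x^2+|t|)^(-(2*s/3) : ℝ) := by
    rw [← Real.rpow_add hr]; congr 1; ring
  have e2 : |x|^(-(2*s/3) : ℝ) = (x^2)^(-(s/3) : ℝ) := by
    rw [← sq_abs, ← Real.rpow_natCast, ← Real.rpow_mul (abs_nonneg _)]; congr 1; push_cast; ring
  rw [e1, GG]
  simp only
  rw [e2]
  apply mul_le_mul
  · exact Real.rpow_le_rpow_of_nonpos hx2 (by linarith) (by linarith)
  · exact Real.rpow_le_rpow_of_nonpos ht2 (by linarith) (by linarith)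
  · positivity
  · positivity

lemma memL1' {E : Type*} [NormedAddCommGroup E] (g : ℝ × ℝ → E) (hm : AEStronglyMeasurable g)
    (C s : ℝ) (hC : 0 ≤ C) (hs : 0 ≤ s) (hs' : s < 3/2)
    (hb : ∀ x t, x ≠ 0 → t ≠ 0 → ‖g (x,t)‖ ≤ C * (x^2+|t|)^(-s))
    (h0 : ∀ x t, 2 < |x| ∨ 2 < |t| → g (x,t) = 0) : Integrable g := by
  have hmaj : Integrable (fun z => C * (indicator (Icc (-2) 2 ×ˢ Icc (-2) 2) (GG s) z)) := by
    refine Integrable.const_mul ?_ _
    rw [integrable_indicator_iff (measurableSet_Icc.prod measurableSet_Icc)]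
    exact GG_int hs'
  refine hmaj.mono' hm ?_
  filter_upwards [ae_prod_ne] with z hz
  obtain ⟨x, t⟩ := z
  by_cases hin : (x, t) ∈ (Icc (-2:ℝ) 2 ×ˢ Icc (-2:ℝ) 2)
  · rw [indicator_of_mem hin]
    exact (hb x t hz.1 hz.2).trans (mul_le_mul_of_nonneg_left (r_le_GG hs hz.1 hz.2) hC)
  · rw [indicator_of_notMem hin]
    have : 2 < |x| ∨ 2 < |t| := by
      by_contra hcon
      push Not at hcon
      exact hin ⟨abs_le.mp hcon.1, abs_le.mp hcon.2⟩
    rw [h0 x t this, norm_zero, mul_zero]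

lemma memL2' (g : ℝ × ℝ → ℂ) (hm : AEStronglyMeasurable g)
    (C s : ℝ) (hC : 0 ≤ C) (hs : 0 ≤ s) (hs' : s < 3/4)
    (hb : ∀ x t, x ≠ 0 → t ≠ 0 → ‖g (x,t)‖ ≤ C * (x^2+|t|)^(-s))
    (h0 : ∀ x t, 2 < |x| ∨ 2 < |t| → g (x,t) = 0) : MemLp g 2 := by
  rw [memLp_two_iff_integrable_sq_norm hm]
  refine memL1' (fun z => ‖g z‖^2) (hm.norm.pow 2) (C^2) (2*s) (by positivity) (by linarith)
    (by linarith) ?_ ?_
  · intro x t hx ht
    have hr : 0 < x^2+|t| := by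
      have : 0 < |t| := abs_pos.mpr ht
      positivity
    have e : (x^2+|t|)^(-(2*s)) = ((x^2+|t|)^(-s))^2 := by
      rw [show (-(2*s)) = (-s)+(-s) by ring, Real.rpow_add hr, ← pow_two]
    rw [e, ← mul_pow, norm_pow, norm_norm]
    exact pow_le_pow_left₀ (norm_nonneg _) (hb x t hx ht) 2
  · intro x t h
    simp only [h0 x t h, norm_zero]; norm_num

/-- integration by parts against an exponential, with countably many bad points -/
lemma ibp' (φ φ' : ℝ → ℂ) (w : ℝ) (hc : Continuous φ) (S : Set ℝ) (hS : S.Countable)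
    (hd : ∀ s, s ∉ S → HasDerivAt φ (φ' s) s) (h0 : ∀ s, 2 ≤ |s| → φ s = 0)
    (h0' : ∀ s, 2 ≤ |s| → φ' s = 0) (hi : Integrable φ') :
    ∫ s, φ' s * ex w s = (2*Real.pi*w : ℝ) * I * ∫ s, φ s * ex w s := by
  have hsub : ∀ g : ℝ → ℂ, (∀ s, 2 ≤ |s| → g s = 0) → Function.support g ⊆ Ioc (-3:ℝ) 3 := by
    intro g hg s hs
    have : |s| < 2 := by
      by_contra hcon
      exact hs (hg s (not_lt.mp hcon))
    rw [abs_lt] at this
    constructor <;> linarith
  have e1 : ∫ s in (-3:ℝ)..3, φ' s * ex w s = ∫ s, φ' s * ex w s :=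
    intervalIntegral.integral_eq_integral_of_support_subset
      (hsub _ (fun s hs => by rw [h0' s hs, zero_mul]))
  have e2 : ∫ s in (-3:ℝ)..3, φ s * ex w s = ∫ s, φ s * ex w s :=
    intervalIntegral.integral_eq_integral_of_support_subset
      (hsub _ (fun s hs => by rw [h0 s hs, zero_mul]))
  have hi1 : IntervalIntegrable (fun s => φ' s * ex w s) volume (-3) 3 := by
    have : Integrable (fun s => φ' s * ex w s) := by
      refine hi.mul_bdd (c := 1) (ex_cont w).aestronglyMeasurable (Filter.Eventually.of_forall fun s => ?_)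
      rw [ex_norm]
    exact this.intervalIntegrable
  have hi2 : IntervalIntegrable (fun s => φ s * (-(2*Real.pi*w : ℝ) * I * ex w s)) volume (-3) 3 :=
    (hc.mul (continuous_const.mul (ex_cont w))).intervalIntegrable _ _
  have key := MeasureTheory.integral_eq_of_hasDerivAt_off_countable (fun s => φ s * ex w s)
    (fun s => φ' s * ex w s + φ s * (-(2*Real.pi*w : ℝ) * I * ex w s)) (a := -3) (b := 3)
    (s := S) hS ((hc.mul (ex_cont w)).continuousOn)
    (fun s hs => (hd s hs.2).mul (ex_deriv w s)) (hi1.add hi2)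
  rw [intervalIntegral.integral_add hi1 hi2, h0 3 (by norm_num), h0 (-3) (by norm_num), e1] at key
  have e3 : ∫ s in (-3:ℝ)..3, φ s * (-(2*Real.pi*w : ℝ) * I * ex w s)
      = -(2*Real.pi*w : ℝ) * I * ∫ s, φ s * ex w s := by
    rw [← e2, ← intervalIntegral.integral_const_mul]
    congr 1; ext s; ring
  rw [e3] at key
  linear_combination key

lemma ibp_x' (W W' : ℝ → ℝ → ℂ) (p : ℝ × ℝ)
    (hW : Integrable (fun z : ℝ × ℝ => W z.1 z.2)) (hW' : Integrable (fun z : ℝ × ℝ => W' z.1 z.2))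
    (hc : ∀ t, t ≠ 0 → Continuous (fun x => W x t))
    (hd : ∀ t, t ≠ 0 → ∃ S : Set ℝ, S.Countable ∧ ∀ x, x ∉ S → HasDerivAt (fun x => W x t) (W' x t) x)
    (h0 : ∀ t x, 2 ≤ |x| → W x t = 0) (h0' : ∀ t x, 2 ≤ |x| → W' x t = 0) :
    ∫ z : ℝ × ℝ, W' z.1 z.2 * ex2 p z
      = (2*Real.pi*p.1 : ℝ) * I * ∫ z : ℝ × ℝ, W z.1 z.2 * ex2 p z := by
  have i1 := int_ex2 hW p
  have i2 := int_ex2 hW' p
  rw [Measure.volume_eq_prod] at i1 i2 hW' ⊢
  rw [integral_prod_symm _ i2, integral_prod_symm _ i1, ← integral_const_mul]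
  apply integral_congr_ae
  filter_upwards [ae_ne_zero, hW'.prod_left_ae] with t ht hit
  obtain ⟨S, hS, hdS⟩ := hd t ht
  have hib := ibp' (fun x => W x t) (fun x => W' x t) p.1 (hc t ht) S hS hdS (h0 t) (h0' t) hit
  simp only [ex2]
  have r1 : ∀ g : ℝ → ℝ → ℂ, ∫ x, g x t * (ex p.1 x * ex p.2 t) = (∫ x, g x t * ex p.1 x) * ex p.2 t := by
    intro g
    rw [← integral_mul_const]
    congr 1; ext x; ring
  rw [r1 W', r1 W, hib]; ring

lemma ibp_t' (W W' : ℝ → ℝ → ℂ) (p : ℝ × ℝ)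
    (hW : Integrable (fun z : ℝ × ℝ => W z.1 z.2)) (hW' : Integrable (fun z : ℝ × ℝ => W' z.1 z.2))
    (hc : ∀ x, x ≠ 0 → Continuous (fun t => W x t))
    (hd : ∀ x, x ≠ 0 → ∃ S : Set ℝ, S.Countable ∧ ∀ t, t ∉ S → HasDerivAt (fun t => W x t) (W' x t) t)
    (h0 : ∀ x t, 2 ≤ |t| → W x t = 0) (h0' : ∀ x t, 2 ≤ |t| → W' x t = 0) :
    ∫ z : ℝ × ℝ, W' z.1 z.2 * ex2 p z
      = (2*Real.pi*p.2 : ℝ) * I * ∫ z : ℝ × ℝ, W z.1 z.2 * ex2 p z := by
  have i1 := int_ex2 hW p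
  have i2 := int_ex2 hW' p
  rw [Measure.volume_eq_prod] at i1 i2 hW' ⊢
  rw [integral_prod _ i2, integral_prod _ i1, ← integral_const_mul]
  apply integral_congr_ae
  filter_upwards [ae_ne_zero, hW'.prod_right_ae] with x hx hit
  obtain ⟨S, hS, hdS⟩ := hd x hx
  have hib := ibp' (fun t => W x t) (fun t => W' x t) p.2 (hc x hx) S hS hdS (h0 x) (h0' x) hit
  simp only [ex2]
  have r1 : ∀ g : ℝ → ℝ → ℂ, ∫ t, g x t * (ex p.1 x * ex p.2 t) = (∫ t, g x t * ex p.2 t) * ex p.1 x := by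
    intro g
    rw [← integral_mul_const]
    congr 1; ext x; ring
  rw [r1 W', r1 W, hib]; ring

end Pool.Agent.H18.PB
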