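import Pool.Agent.H18.PB.Sol
import Pool.Graph.R_seed8.W787.PEmain
set_option autoImplicit false

/-! The failure of the `L^p` bounds below `3/(3-δ)`. Adapted from the library module PEmain. -/

namespace Pool.Agent.H18.PB

open MeasureTheory Complex FourierTransform Set
open Pool.Agent.W787.PE (Plane L2 toProd toProd_mp toProd_apply InE form Elliptic IsResolvent
  LpBounded pMinus resolvent_exists lpBounded_two KK KK_meas KK_vol)
open scoped ENNReal NNReal ComplexConjugate InnerProductSpace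

/-- the test set -/
def SS (η ε : ℝ) : Set Plane := toProd ⁻¹' (Icc ε (2*ε) ×ˢ Icc 0 (η*ε^2))

lemma SS_meas (η ε : ℝ) : MeasurableSet (SS η ε) :=
  toProd.measurable (measurableSet_Icc.prod measurableSet_Icc)

lemma SS_vol {η ε : ℝ} (hε : 0 < ε) : volume (SS η ε) = ENNReal.ofReal (η*ε^3) := by
  rw [SS, toProd_mp.measure_preimage (measurableSet_Icc.prod measurableSet_Icc).nullMeasurableSet,
    Measure.volume_eq_prod, Measure.prod_prod, Real.volume_Icc, Real.volume_Icc,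
    ← ENNReal.ofReal_mul (by linarith)]
  congr 1; ring

namespace Sol

variable {δ : ℝ} (D : Sol δ) (hδ : 0 < δ) (hδ' : δ < 1/2)

include hδ hδ' in
lemma int_lower {c0 η ε0 ε : ℝ} (hη : 0 < η) (hε : 0 < ε) (hε1 : ε ≤ ε0)
    (hl : ∀ ε x t : ℝ, 0 < ε → ε ≤ ε0 → ε ≤ x → x ≤ 2*ε →
      0 ≤ t → t ≤ η*ε^2 → c0 * ε^(-δ) ≤ (D.W x t).re) :
    c0 * ε^(-δ) * (η*ε^3) ≤ ‖∫ z in SS η ε, conj (D.w' z)‖ := by
  have hi : IntegrableOn (fun z => conj (D.w' z)) (SS η ε) := by
    have : Integrable (fun z => conj (D.w' z)) := by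
      exact (Complex.conjCLE.toContinuousLinearMap.integrable_comp (D.w'_i hδ hδ'))
    exact this.integrableOn
  have hfin : volume (SS η ε) < ⊤ := by rw [SS_vol hε]; exact ENNReal.ofReal_lt_top
  refine le_trans ?_ (Complex.re_le_norm _)
  have e : (∫ z in SS η ε, conj (D.w' z)).re = ∫ z in SS η ε, (D.w' z).re := by
    have h := (integral_re (𝕜 := ℂ) hi).symm
    refine Eq.trans h ?_
    simp
  rw [e]
  have hc : ∫ z in SS η ε, c0 * ε^(-δ) = c0 * ε^(-δ) * (η*ε^3) := by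
    rw [setIntegral_const, measureReal_def, SS_vol hε, ENNReal.toReal_ofReal (by positivity)]
    simp [mul_comm]
  rw [← hc]
  refine setIntegral_mono_on (integrableOn_const hfin.ne) ?_ (SS_meas η ε) ?_
  · exact (Complex.reCLM.integrable_comp (D.w'_i hδ hδ')).integrableOn
  · intro z hz
    have hz' : toProd z ∈ (Icc ε (2*ε) ×ˢ Icc 0 (η*ε^2)) := hz
    rw [toProd_apply] at hz'
    exact hl ε _ _ hε hε1 hz'.1.1 hz'.1.2 hz'.2.1 hz'.2.2

lemma f'_zero {v : Plane} (hv : v ∉ KK) : D.f' v = 0 := by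
  have : ¬ ((v 0, v 1) ∈ (Icc (-2:ℝ) 2 ×ˢ Icc (-2:ℝ) 2)) := hv
  have h : 2 < |v 0| ∨ 2 < |v 1| := by
    by_contra hcon
    push Not at hcon
    exact this ⟨abs_le.mp hcon.1, abs_le.mp hcon.2⟩
  rcases h with h | h
  · exact D.fzx _ _ h.le
  · exact D.fzt _ _ h.le

lemma pair_bound (p : ℝ) (hp : 1 ≤ p) : ∃ E : ℝ, 0 ≤ E ∧ ∀ y : L2,
    eLpNorm y (ENNReal.ofReal p) volume < ⊤ →
    ‖∫ z, y z * conj (D.fL z)‖ ≤ E * (eLpNorm y (ENNReal.ofReal p) volume).toReal := by
  obtain ⟨C, hC, hb⟩ := D.fbd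
  refine ⟨C*16, by positivity, fun y hy => ?_⟩
  have e1 : ∫ z, y z * conj (D.fL z) = ∫ z in KK, y z * conj (D.f' z) := by
    rw [← integral_indicator KK_meas]
    apply integral_congr_ae
    filter_upwards [D.f'_2.coeFn_toLp] with z hz
    have : D.fL z = D.f' z := hz
    rw [this]
    by_cases h : z ∈ KK
    · rw [indicator_of_mem h]
    · rw [indicator_of_notMem h, D.f'_zero h]; simp
  have hym : AEStronglyMeasurable (y : Plane → ℂ) (volume.restrict KK) :=
    (Lp.aestronglyMeasurable y).restrict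
  have hle : eLpNorm y 1 (volume.restrict KK) ≤ 16 * eLpNorm y (ENNReal.ofReal p) volume := by
    have h1 := eLpNorm_le_eLpNorm_mul_rpow_measure_univ (p := 1) (q := ENNReal.ofReal p)
      (by rw [← ENNReal.ofReal_one]; exact ENNReal.ofReal_le_ofReal hp) hym
    refine h1.trans ?_
    rw [Measure.restrict_apply_univ, KK_vol, mul_comm]
    refine mul_le_mul' ?_ (eLpNorm_mono_measure _ Measure.restrict_le_self)
    rw [ENNReal.toReal_ofReal (by linarith)]
    calc (16:ℝ≥0∞)^(1/(1:ℝ≥0∞).toReal - 1/p) ≤ (16:ℝ≥0∞)^(1:ℝ) := by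
          apply ENNReal.rpow_le_rpow_of_exponent_le (by norm_num)
          have : 0 ≤ 1/p := by positivity
          simp only [ENNReal.toReal_one, div_one]
          linarith
      _ = 16 := by simp
  have hfin : eLpNorm y 1 (volume.restrict KK) < ⊤ :=
    lt_of_le_of_lt hle (ENNReal.mul_lt_top (by norm_num) hy)
  have hyi : IntegrableOn (fun z => ‖y z‖) KK := by
    have : MemLp y 1 (volume.restrict KK) := ⟨hym, hfin⟩
    exact (memLp_one_iff_integrable.mp this).norm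
  have hne : ∀ᵐ v : Plane, v 0 ≠ 0 ∧ v 1 ≠ 0 := by
    have := toProd_mp.quasiMeasurePreserving.ae Pool.Agent.W787.PE.ae_prod_ne
    filter_upwards [this] with v hv
    rw [toProd_apply] at hv
    exact hv
  rw [e1]
  calc ‖∫ z in KK, y z * conj (D.f' z)‖ ≤ ∫ z in KK, C * ‖y z‖ := by
        refine norm_integral_le_of_norm_le (hyi.const_mul C) ?_
        filter_upwards [ae_restrict_of_ae hne] with z hz
        rw [norm_mul, RCLike.norm_conj, mul_comm]
        exact mul_le_mul_of_nonneg_right (hb _ _ hz.1 hz.2) (norm_nonneg _)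
    _ = C * ∫ z in KK, ‖y z‖ := integral_const_mul _ _
    _ = C * (eLpNorm y 1 (volume.restrict KK)).toReal := by
        rw [eLpNorm_one_eq_lintegral_enorm, integral_norm_eq_lintegral_enorm hym]
    _ ≤ C * (16 * eLpNorm y (ENNReal.ofReal p) volume).toReal := by
        refine mul_le_mul_of_nonneg_left ?_ hC
        exact ENNReal.toReal_mono (ENNReal.mul_lt_top (by norm_num) hy).ne hle
    _ = _ := by rw [ENNReal.toReal_mul]; norm_num; ring

include hδ hδ' in
theorem not_bounded (p : ℝ) (hp : 1 ≤ p) (hp' : p < 3/(3-δ)) : ¬ LpBounded D.bb p := by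
  rintro ⟨C, hC⟩
  obtain ⟨E, hE, hpair⟩ := D.pair_bound p hp
  obtain ⟨c0, η, ε0, hc0, hη, hε0, hlow⟩ := D.low
  have hp0 : 0 < p := by linarith
  have hpne : ENNReal.ofReal p ≠ 0 := by
    rw [Ne, ENNReal.ofReal_eq_zero]; linarith
  -- the inequality for every small `ε`
  have key : ∀ ε : ℝ, 0 < ε → ε ≤ ε0 → c0 * η ≤ E * C * η^(1/p) * ε^(3/p - (3-δ)) := by
    intro ε hε hε1
    have hfin : volume (SS η ε) ≠ ⊤ := by rw [SS_vol hε]; exact ENNReal.ofReal_ne_top
    have hφ2 : MemLp ((SS η ε).indicator fun _ => (1:ℂ)) 2 (volume : Measure Plane) :=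
      memLp_indicator_const 2 (SS_meas η ε) (1:ℂ) (Or.inr hfin)
    have hφp : MemLp ((SS η ε).indicator fun _ => (1:ℂ)) (ENNReal.ofReal p)
        (volume : Measure Plane) :=
      memLp_indicator_const _ (SS_meas η ε) (1:ℂ) (Or.inr hfin)
    set φ : L2 := hφ2.toLp _ with hφ
    have hφae := hφ2.coeFn_toLp
    have hφp' : MemLp φ (ENNReal.ofReal p) volume := (memLp_congr_ae hφae).mpr hφp
    obtain ⟨y, hy, -⟩ := resolvent_exists D.bb D.bb_elliptic 1 one_pos φ
    have hb : eLpNorm y (ENNReal.ofReal p) volume ≤ C * eLpNorm φ (ENNReal.ofReal p) volume :=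
      hC 1 one_pos φ y hφp' hy
    have hnorm : eLpNorm φ (ENNReal.ofReal p) volume = ENNReal.ofReal ((η*ε^3)^(1/p)) := by
      rw [eLpNorm_congr_ae hφae, eLpNorm_indicator_const (SS_meas η ε) hpne ENNReal.ofReal_ne_top,
        SS_vol hε, ENNReal.toReal_ofReal hp0.le, enorm_one, one_mul,
        ENNReal.ofReal_rpow_of_pos (by positivity)]
    have hyfin : eLpNorm y (ENNReal.ofReal p) volume < ⊤ :=
      lt_of_le_of_lt hb (ENNReal.mul_lt_top ENNReal.coe_lt_top hφp'.eLpNorm_lt_top)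
    have h1 := hy.2 (D.wL hδ hδ') (D.wL_inE hδ hδ')
    rw [Complex.ofReal_one, one_pow, one_mul, D.dual hδ hδ' y hy.1] at h1
    have h2 : ∫ z, φ z * conj (D.wL hδ hδ' z) = ∫ z in SS η ε, conj (D.w' z) := by
      rw [← integral_indicator (SS_meas η ε)]
      apply integral_congr_ae
      filter_upwards [hφae, (D.w'_2 hδ hδ').coeFn_toLp] with z a1 a2
      have a2' : D.wL hδ hδ' z = D.w' z := a2
      rw [a1, a2']
      by_cases h : z ∈ SS η ε
      · rw [indicator_of_mem h, indicator_of_mem h, one_mul]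
      · rw [indicator_of_notMem h, indicator_of_notMem h, zero_mul]
    have h3 := D.int_lower hδ hδ' hη hε hε1 hlow
    have h1' : ∫ z, y z * conj (D.fL z) = ∫ z, φ z * conj (D.wL hδ hδ' z) := h1
    rw [← h2, ← h1'] at h3
    have h4 := h3.trans (hpair y hyfin)
    have h5 : (eLpNorm y (ENNReal.ofReal p) volume).toReal ≤ C * (η*ε^3)^(1/p) := by
      have := ENNReal.toReal_mono (ENNReal.mul_lt_top ENNReal.coe_lt_top hφp'.eLpNorm_lt_top).ne hb
      rw [ENNReal.toReal_mul, hnorm, ENNReal.toReal_ofReal (by positivity), ENNReal.coe_toReal] at this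
      exact this
    have h6 : c0 * ε^(-δ) * (η*ε^3) ≤ E * (C * (η*ε^3)^(1/p)) :=
      h4.trans (mul_le_mul_of_nonneg_left h5 hE)
    have e1 : ε^(-δ) * ε^3 = ε^(3-δ : ℝ) := by
      rw [← Real.rpow_natCast, ← Real.rpow_add hε]; congr 1; push_cast; ring
    have e2 : (η*ε^3)^(1/p) = η^(1/p) * ε^(3/p - (3-δ)) * ε^(3-δ : ℝ) := by
      rw [Real.mul_rpow hη.le (by positivity), mul_assoc, ← Real.rpow_add hε,
        ← Real.rpow_natCast ε 3, ← Real.rpow_mul hε.le]
      congr 2; push_cast; ring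
    have h7 : c0 * η * ε^(3-δ : ℝ) ≤ E * C * η^(1/p) * ε^(3/p - (3-δ)) * ε^(3-δ : ℝ) := by
      calc c0 * η * ε^(3-δ : ℝ) = c0 * ε^(-δ) * (η*ε^3) := by rw [← e1]; ring
        _ ≤ _ := h6
        _ = _ := by rw [e2]; ring
    have hpos : 0 < ε^(3-δ : ℝ) := Real.rpow_pos_of_pos hε _
    exact le_of_mul_le_mul_right h7 hpos
  have hs : 0 < 3/p - (3-δ) := by
    rw [sub_pos, lt_div_iff₀ hp0]
    rw [lt_div_iff₀ (by linarith)] at hp'
    linarith
  have hlim : Filter.Tendsto (fun ε : ℝ => E * C * η^(1/p) * ε^(3/p - (3-δ)))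
      (nhdsWithin 0 (Ioi 0)) (nhds 0) := by
    have h1 : Filter.Tendsto (fun ε : ℝ => ε^(3/p - (3-δ))) (nhds 0) (nhds 0) := by
      have := (Real.continuousAt_rpow_const (0:ℝ) (3/p - (3-δ)) (Or.inr hs.le)).tendsto
      rwa [Real.zero_rpow hs.ne'] at this
    have h2 := (h1.const_mul (E*C*η^(1/p))).mono_left (nhdsWithin_le_nhds (s := Ioi 0))
    simpa using h2
  have hev : ∀ᶠ ε in nhdsWithin (0:ℝ) (Ioi 0), c0 * η ≤ E * C * η^(1/p) * ε^(3/p - (3-δ)) := by
    have h1 : ∀ᶠ ε in nhdsWithin (0:ℝ) (Ioi 0), ε ∈ Ioi (0:ℝ) := self_mem_nhdsWithin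
    have h2 : ∀ᶠ ε in nhdsWithin (0:ℝ) (Ioi 0), ε < ε0 :=
      nhdsWithin_le_nhds (Iio_mem_nhds hε0)
    filter_upwards [h1, h2] with ε a b using key ε a b.le
  have := ge_of_tendsto hlim hev
  have h8 : 0 < c0 * η := by positivity
  linarith

include hδ hδ' in
theorem pMinus_ge : 3/(3-δ) ≤ pMinus D.bb := by
  apply le_csInf
  · exact ⟨2, by norm_num, by norm_num, lpBounded_two D.bb D.bb_elliptic⟩
  · rintro p ⟨h1, -, h3⟩
    by_contra hcon
    exact D.not_bounded hδ hδ' p h1 (not_le.mp hcon) h3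

end Sol

end Pool.Agent.H18.PB
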