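import Pool.Agent.H18.PB.PS
set_option autoImplicit false

/-! From two profiles to a localised singular solution. -/

namespace Pool.Agent.H18.PB

open Complex Set Filter MeasureTheory
open Pool.Agent.W787.PE (cut X0 X1 X2 X0c X1c X2c dX0 dX1 exists_bd)
open scoped Topology

section cutoffs

variable (M : ℝ)

noncomputable def S0 (t : ℝ) : ℝ := Real.exp t * cut.χ (M*t)
noncomputable def S1 (t : ℝ) : ℝ := Real.exp t * (cut.χ (M*t) + M*cut.χ1 (M*t))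

lemma S0c : Continuous (S0 M) := Real.continuous_exp.mul (cut.c0.comp (continuous_const.mul continuous_id))
lemma S1c : Continuous (S1 M) := Real.continuous_exp.mul
  ((cut.c0.comp (continuous_const.mul continuous_id)).add
    (continuous_const.mul (cut.c1.comp (continuous_const.mul continuous_id))))

lemma dS0 (t : ℝ) : HasDerivAt (fun t => ((S0 M t : ℝ) : ℂ)) (S1 M t : ℂ) t := by
  have h1 : HasDerivAt (fun t : ℝ => cut.χ (M*t)) (cut.χ1 (M*t)*M) t := by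
    have h2 : HasDerivAt (fun t : ℝ => M*t) M t := by
      simpa using (hasDerivAt_id t).const_mul M
    exact (cut.d0 (M*t)).comp t h2
  have h3 := ((Real.hasDerivAt_exp t).mul h1).ofReal_comp
  refine h3.congr_deriv ?_
  rw [S1]; push_cast; ring

variable {M}

lemma S0_z (hM : 1 ≤ M) {t : ℝ} (h : 2 ≤ |M*t|) : S0 M t = 0 := by
  rw [S0, cut.z0 _ h, mul_zero]
lemma S1_z (hM : 1 ≤ M) {t : ℝ} (h : 2 ≤ |M*t|) : S1 M t = 0 := by
  rw [S1, cut.z0 _ h, cut.z1 _ h]; ring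
lemma big (hM : 1 ≤ M) {t : ℝ} (h : 2 ≤ |t|) : 2 ≤ |M*t| := by
  rw [abs_mul, abs_of_pos (by linarith)]; nlinarith [abs_nonneg t]
lemma S01_z (hM : 1 ≤ M) {t : ℝ} (h : |M*t| < 1) : S0 M t - S1 M t = 0 := by
  rw [S0, S1, cut.one1 _ h]; ring

lemma cbd (hM : 1 ≤ M) : ∃ N : ℝ, 1 ≤ N ∧ ∀ x, |X0 x| ≤ N ∧ |X1 x| ≤ N ∧ |X2 x| ≤ N ∧
    |S0 M x| ≤ N ∧ |S1 M x| ≤ N ∧ |S0 M x - S1 M x| ≤ N := by
  obtain ⟨a, a0, ha⟩ := exists_bd X0 X0c cut.z0
  obtain ⟨b, b0, hb⟩ := exists_bd X1 X1c cut.z1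
  obtain ⟨c, c0, hc⟩ := exists_bd X2 X2c cut.z2
  obtain ⟨d, d0, hd⟩ := exists_bd (S0 M) (S0c M) (fun x h => S0_z hM (big hM h))
  obtain ⟨e, e0, he⟩ := exists_bd (S1 M) (S1c M) (fun x h => S1_z hM (big hM h))
  refine ⟨1+a+b+c+d+e, by linarith, fun x => ⟨?_, ?_, ?_, ?_, ?_, ?_⟩⟩
  · linarith [ha x]
  · linarith [hb x]
  · linarith [hc x]
  · linarith [hd x]
  · linarith [he x]
  · have := abs_sub (S0 M x) (S1 M x)
    linarith [hd x, he x]

end cutoffs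

variable {α : ℝ} (p m : Prof α) (M : ℝ)

noncomputable def sdd (t : ℝ) : Prof α := if 0 ≤ t then p else m

noncomputable def wW (x t : ℝ) : ℂ := (X0 x : ℂ) * (S0 M t : ℂ) * (sdd p m t).U x |t|
noncomputable def wWx (x t : ℝ) : ℂ :=
  (S0 M t : ℂ) * ((X1 x : ℂ) * (sdd p m t).U x |t| + (X0 x : ℂ) * (sdd p m t).Ux x |t|)
noncomputable def wWt (x t : ℝ) : ℂ :=
  (X0 x : ℂ) * ((S1 M t : ℂ) * (sdd p m t).U x |t| + (S0 M t : ℂ) * ((sdd p m t).s * (sdd p m t).Uh x |t|))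
noncomputable def gg (r : Prof α) (x h : ℝ) : ℂ := (X1 x : ℂ) * (r.c x h * r.U x h)
noncomputable def ggx (r : Prof α) (x h : ℝ) : ℂ :=
  (X2 x : ℂ) * (r.c x h * r.U x h) + (X1 x : ℂ) * (r.cx x h * r.U x h - r.s * r.V x h)
noncomputable def wFl (x t : ℝ) : ℂ :=
  (S0 M t : ℂ) * (gg (sdd p m t) x |t| - (sdd p m t).s * ((X0 x : ℂ) * (sdd p m t).V x |t|))
noncomputable def wFlx (x t : ℝ) : ℂ :=
  (S0 M t : ℂ) * (ggx (sdd p m t) x |t|
    - (sdd p m t).s * ((X1 x : ℂ) * (sdd p m t).V x |t| + (X0 x : ℂ) * (sdd p m t).Uh x |t|))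
noncomputable def wco (x t : ℝ) : ℂ := if t = 0 then 1 else (sdd p m t).c x |t|

lemma mX {f : ℝ → ℝ} (hf : Continuous f) : Measurable (fun z : ℝ × ℝ => ((f z.1 : ℝ) : ℂ)) :=
  Complex.measurable_ofReal.comp (hf.measurable.comp measurable_fst)
lemma mT {f : ℝ → ℝ} (hf : Continuous f) : Measurable (fun z : ℝ × ℝ => ((f z.2 : ℝ) : ℂ)) :=
  Complex.measurable_ofReal.comp (hf.measurable.comp measurable_snd)

lemma msd (g : Prof α → ℝ × ℝ → ℂ) (h : ∀ a, Measurable (g a)) :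
    Measurable (fun z : ℝ × ℝ => g (sdd p m z.2) z) := by
  have e : (fun z : ℝ × ℝ => g (sdd p m z.2) z) = fun z => if 0 ≤ z.2 then g p z else g m z := by
    ext z; unfold sdd; split_ifs <;> rfl
  rw [e]
  exact Measurable.ite (measurableSet_le measurable_const measurable_snd) (h p) (h m)

lemma mss : Measurable (fun z : ℝ × ℝ => ((sdd p m z.2).s : ℂ)) :=
  msd p m (fun a _ => (a.s : ℂ)) (fun _ => measurable_const)

lemma wW_m : Measurable (fun z : ℝ × ℝ => wW p m M z.1 z.2) :=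
  ((mX X0c).mul (mT (S0c M))).mul (msd p m (fun a z => a.U z.1 |z.2|) (fun a => a.mU))
lemma wWx_m : Measurable (fun z : ℝ × ℝ => wWx p m M z.1 z.2) :=
  (mT (S0c M)).mul (((mX X1c).mul (msd p m (fun a z => a.U z.1 |z.2|) (fun a => a.mU))).add
    ((mX X0c).mul (msd p m (fun a z => a.Ux z.1 |z.2|) (fun a => a.mUx))))
lemma wWt_m : Measurable (fun z : ℝ × ℝ => wWt p m M z.1 z.2) :=
  (mX X0c).mul (((mT (S1c M)).mul (msd p m (fun a z => a.U z.1 |z.2|) (fun a => a.mU))).add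
    ((mT (S0c M)).mul ((mss p m).mul (msd p m (fun a z => a.Uh z.1 |z.2|) (fun a => a.mUh)))))
lemma wFl_m : Measurable (fun z : ℝ × ℝ => wFl p m M z.1 z.2) :=
  (mT (S0c M)).mul ((msd p m (fun a z => gg a z.1 |z.2|)
    (fun a => (mX X1c).mul (a.mc.mul a.mU))).sub ((mss p m).mul ((mX X0c).mul
      (msd p m (fun a z => a.V z.1 |z.2|) (fun a => a.mV)))))
lemma wFlx_m : Measurable (fun z : ℝ × ℝ => wFlx p m M z.1 z.2) :=
  (mT (S0c M)).mul ((msd p m (fun a z => ggx a z.1 |z.2|)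
    (fun a => ((mX X2c).mul (a.mc.mul a.mU)).add ((mX X1c).mul
      ((a.mcx.mul a.mU).sub (a.mV.const_mul _))))).sub ((mss p m).mul (((mX X1c).mul
      (msd p m (fun a z => a.V z.1 |z.2|) (fun a => a.mV))).add ((mX X0c).mul
      (msd p m (fun a z => a.Uh z.1 |z.2|) (fun a => a.mUh))))))
lemma wco_m : Measurable (fun z : ℝ × ℝ => wco p m z.1 z.2) := by
  unfold wco
  exact Measurable.ite (measurableSet_eq_fun measurable_snd measurable_const) measurable_const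
    (msd p m (fun a z => a.c z.1 |z.2|) (fun a => a.mc))

lemma sbds (h0 : 0 < α) (h1 : α < 1) : ∃ C : ℝ, 1 ≤ C ∧ ∀ t x h : ℝ, 0 < h →
    ‖(sdd p m t).U x h‖ ≤ C * (x^2+h)^(α-1/2) ∧ ‖(sdd p m t).Ux x h‖ ≤ C * (x^2+h)^(α-1) ∧
    ‖(sdd p m t).V x h‖ ≤ C * (x^2+h)^(α-1) ∧ ‖(sdd p m t).Uh x h‖ ≤ C * (x^2+h)^(α-3/2) ∧
    ‖(sdd p m t).c x h‖ ≤ C ∧ C⁻¹ ≤ ((sdd p m t).c x h).re ∧ ‖(sdd p m t).q‖ ≤ C := by
  obtain ⟨C1, hC1, hb1⟩ := p.bds h0 h1
  obtain ⟨C2, hC2, hb2⟩ := m.bds h0 h1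
  have n1 := norm_nonneg p.q
  have n2 := norm_nonneg m.q
  refine ⟨C1+C2+‖p.q‖+‖m.q‖, by linarith, ?_⟩
  intro t x h hh
  have hr : 0 < x^2+h := by positivity
  have w : ∀ (e K : ℝ) (z : ℂ), K ≤ C1+C2+‖p.q‖+‖m.q‖ → ‖z‖ ≤ K*(x^2+h)^e →
      ‖z‖ ≤ (C1+C2+‖p.q‖+‖m.q‖)*(x^2+h)^e := fun e K z hK hz =>
    hz.trans (mul_le_mul_of_nonneg_right hK (Real.rpow_nonneg hr.le _))
  unfold sdd
  split_ifs
  · obtain ⟨b1, b2, b3, b4, b5, b6⟩ := hb1 x h hh
    exact ⟨w _ _ _ (by linarith) b1, w _ _ _ (by linarith) b2, w _ _ _ (by linarith) b3,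
      w _ _ _ (by linarith) b4, by linarith,
      le_trans (inv_anti₀ (by linarith) (by linarith)) b6, by linarith⟩
  · obtain ⟨b1, b2, b3, b4, b5, b6⟩ := hb2 x h hh
    exact ⟨w _ _ _ (by linarith) b1, w _ _ _ (by linarith) b2, w _ _ _ (by linarith) b3,
      w _ _ _ (by linarith) b4, by linarith,
      le_trans (inv_anti₀ (by linarith) (by linarith)) b6, by linarith⟩

lemma sqc (a : ℝ) : {x : ℝ | x^2 = a}.Countable := by
  refine Set.Countable.mono (s₂ := {Real.sqrt a, -Real.sqrt a}) ?_ (Set.toFinite _).countable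
  intro x hx
  have h : Real.sqrt (x^2) = |x| := Real.sqrt_sq_eq_abs x
  rw [mem_ofPred_eq] at hx
  rw [hx] at h
  rcases eq_or_eq_neg_of_abs_eq h.symm with h | h
  · left; exact h
  · right; exact h

lemma absc (a : ℝ) : {x : ℝ | |x| = a}.Countable := by
  refine Set.Countable.mono (s₂ := {a, -a}) ?_ (Set.toFinite _).countable
  intro x hx
  rcases eq_or_eq_neg_of_abs_eq hx with h | h
  · left; exact h
  · right; exact h

lemma bad_x (r : Prof α) {h : ℝ} (hh : 0 < h) : ∃ S : Set ℝ, S.Countable ∧ ∀ x, x ∉ S →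
    x ≠ 0 ∧ x^2/h ≠ 1 ∧ x^2/h ≠ r.T := by
  refine ⟨{x | x^2 = 0} ∪ ({x | x^2 = h} ∪ {x | x^2 = r.T*h}),
    (sqc _).union ((sqc _).union (sqc _)), fun x hx => ?_⟩
  simp only [mem_union, mem_ofPred_eq, not_or] at hx
  obtain ⟨h1, h2, h3⟩ := hx
  refine ⟨fun h0 => h1 (by rw [h0]; norm_num), fun h0 => h2 ?_, fun h0 => h3 ?_⟩
  · rw [div_eq_iff hh.ne'] at h0; linarith
  · rw [div_eq_iff hh.ne'] at h0; exact h0

lemma bad_t {x : ℝ} (hx : x ≠ 0) : ∃ S : Set ℝ, S.Countable ∧ ∀ t, t ∉ S →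
    t ≠ 0 ∧ x^2/|t| ≠ 1 ∧ x^2/|t| ≠ p.T ∧ x^2/|t| ≠ m.T := by
  refine ⟨{t | |t| = 0} ∪ ({t | |t| = x^2} ∪ ({t | |t| = x^2/p.T} ∪ {t | |t| = x^2/m.T})),
    (absc _).union ((absc _).union ((absc _).union (absc _))), fun t ht => ?_⟩
  simp only [mem_union, mem_ofPred_eq, not_or] at ht
  obtain ⟨h1, h2, h3, h4⟩ := ht
  have ht0 : |t| ≠ 0 := h1
  have hp := p.T0
  have hm := m.T0
  refine ⟨fun h0 => h1 (by rw [h0]; norm_num), fun h0 => h2 ?_, fun h0 => h3 ?_, fun h0 => h4 ?_⟩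
  · rw [div_eq_iff ht0] at h0; linarith
  · rw [div_eq_iff ht0] at h0; rw [eq_div_iff hp.ne', h0]; ring
  · rw [div_eq_iff ht0] at h0; rw [eq_div_iff hm.ne', h0]; ring

lemma dgg (r : Prof α) {h : ℝ} (hh : 0 < h) (hT : r.T*h < 1) (x : ℝ) :
    HasDerivAt (fun x => gg r x h) (ggx r x h) x := by
  by_cases hx : |x| < 1
  · have e1 : (fun x => gg r x h) =ᶠ[𝓝 x] fun _ => 0 := by
      have : ∀ᶠ y in 𝓝 x, |y| < 1 := continuous_abs.continuousAt.eventually (gt_mem_nhds hx)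
      filter_upwards [this] with y hy
      rw [gg, X1, cut.one1 y hy]; simp
    have e2 : ggx r x h = 0 := by
      rw [ggx, X1, X2, cut.one1 x hx, cut.one2 x hx]; simp
    rw [e2]
    exact (hasDerivAt_const x (0:ℂ)).congr_of_eventuallyEq e1
  · have hx1 : 1 ≤ |x| := not_lt.mp hx
    have hx2 : 1 ≤ x^2 := by rw [← sq_abs]; nlinarith
    have hx0 : x ≠ 0 := by intro h0; rw [h0] at hx1; norm_num at hx1
    have hlt : r.T < x^2/h := by rw [lt_div_iff₀ hh]; linarith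
    have h1 := r.dc hh (by linarith : r.T*h < x^2)
    have h2 := r.U_dx hh hx0 (by have := r.hT; intro h0; linarith) (ne_of_gt hlt)
    refine ((dX1 x).mul (h1.mul h2)).congr_deriv ?_
    rw [ggx, r.cUx hh]; simp only [Pi.mul_apply]; ring

lemma pos_abs {t : ℝ} (ht : t ≠ 0) : 0 < |t| := abs_pos.mpr ht

lemma sdd_T {t : ℝ} (hM : 4*(p.T+m.T) ≤ M) (ht : |M*t| < 2) : (sdd p m t).T*|t| < 1 := by
  have hp := p.T0
  have hm := m.T0
  have hM0 : 0 < M := by linarith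
  rw [abs_mul, abs_of_pos hM0] at ht
  have h1 : (sdd p m t).T ≤ p.T+m.T := by unfold sdd; split_ifs <;> linarith
  have h2 := mul_le_mul_of_nonneg_right h1 (abs_nonneg t)
  have h3 := mul_le_mul_of_nonneg_right hM (abs_nonneg t)
  linarith

lemma wW_cx {t : ℝ} (ht : t ≠ 0) : Continuous (fun x => wW p m M x t) := by
  have := (sdd p m t).U_cx (pos_abs ht)
  have := X0c
  unfold wW
  fun_prop

lemma wW_dx {t : ℝ} (ht : t ≠ 0) : ∃ S : Set ℝ, S.Countable ∧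
    ∀ x, x ∉ S → HasDerivAt (fun x => wW p m M x t) (wWx p m M x t) x := by
  obtain ⟨S, hS, h⟩ := bad_x (sdd p m t) (pos_abs ht)
  refine ⟨S, hS, fun x hx => ?_⟩
  obtain ⟨h1, h2, h3⟩ := h x hx
  have hU := (sdd p m t).U_dx (pos_abs ht) h1 h2 h3
  refine (((dX0 x).mul_const (S0 M t : ℂ)).mul hU).congr_deriv ?_
  rw [wWx]; ring

lemma wFl_cx (hM : 4*(p.T+m.T) ≤ M) {t : ℝ} (ht : t ≠ 0) : Continuous (fun x => wFl p m M x t) := by
  have hp := p.hT
  have hm := m.hT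
  by_cases hc : 2 ≤ |M*t|
  · have : (fun x => wFl p m M x t) = fun _ => 0 := by
      ext x; rw [wFl, S0_z (by linarith) hc]; simp
    rw [this]; exact continuous_const
  · have h1 : Continuous (fun x => gg (sdd p m t) x |t|) := by
      rw [continuous_iff_continuousAt]
      intro x
      exact (dgg _ (pos_abs ht) (sdd_T p m M hM (not_le.mp hc)) x).continuousAt
    have h2 := (sdd p m t).V_cx (pos_abs ht)
    have := X0c
    unfold wFl
    fun_prop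

lemma wFl_dx (hM : 4*(p.T+m.T) ≤ M) {t : ℝ} (ht : t ≠ 0) : ∃ S : Set ℝ, S.Countable ∧
    ∀ x, x ∉ S → HasDerivAt (fun x => wFl p m M x t) (wFlx p m M x t) x := by
  have hp := p.hT
  have hm := m.hT
  by_cases hc : 2 ≤ |M*t|
  · refine ⟨∅, countable_empty, fun x _ => ?_⟩
    have e1 : (fun x => wFl p m M x t) = fun _ => 0 := by
      ext x; rw [wFl, S0_z (by linarith) hc]; simp
    have e2 : wFlx p m M x t = 0 := by rw [wFlx, S0_z (by linarith) hc]; simp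
    rw [e1, e2]; exact hasDerivAt_const _ _
  · obtain ⟨S, hS, h⟩ := bad_x (sdd p m t) (pos_abs ht)
    refine ⟨S, hS, fun x hx => ?_⟩
    obtain ⟨h1, h2, h3⟩ := h x hx
    have hV := (sdd p m t).V_dx (pos_abs ht) h1 h2 h3
    have hg := dgg (sdd p m t) (pos_abs ht) (sdd_T p m M hM (not_le.mp hc)) x
    refine ((hg.sub (((dX0 x).mul hV).const_mul ((sdd p m t).s : ℂ))).const_mul
      (S0 M t : ℂ)).congr_deriv ?_
    rw [wFlx]

lemma sdd_pos {t : ℝ} (h : 0 ≤ t) : sdd p m t = p := by rw [sdd, if_pos h]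
lemma sdd_neg {t : ℝ} (h : t < 0) : sdd p m t = m := by rw [sdd, if_neg (not_le.mpr h)]

lemma wW_dt (hps : p.s = 1) (hms : m.s = -1) {x : ℝ} (hx : x ≠ 0) : ∃ S : Set ℝ, S.Countable ∧
    ∀ t, t ∉ S → HasDerivAt (fun t => wW p m M x t) (wWt p m M x t) t := by
  obtain ⟨S, hS, h⟩ := bad_t p m hx
  refine ⟨S, hS, fun t htS => ?_⟩
  obtain ⟨h1, h2, h3, h4⟩ := h t htS
  rcases lt_or_gt_of_ne h1 with ht | ht
  · have e : (fun t => wW p m M x t) =ᶠ[𝓝 t] fun t => (X0 x : ℂ) * (S0 M t : ℂ) * m.U x (-t) := by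
      filter_upwards [gt_mem_nhds ht] with k hk
      rw [wW, sdd_neg p m hk, abs_of_neg hk]
    refine HasDerivAt.congr_of_eventuallyEq ?_ e
    rw [abs_of_neg ht] at h2 h3 h4
    have hU := (m.U_dh (neg_pos.mpr ht) hx h2 h4).scomp t (hasDerivAt_neg t)
    refine (((dS0 M t).const_mul (X0 x : ℂ)).mul hU).congr_deriv ?_
    rw [wWt, sdd_neg p m ht, abs_of_neg ht, hms]
    simp only [Function.comp, real_smul]
    push_cast; ring
  · have e : (fun t => wW p m M x t) =ᶠ[𝓝 t] fun t => (X0 x : ℂ) * (S0 M t : ℂ) * p.U x t := by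
      filter_upwards [lt_mem_nhds ht] with k hk
      rw [wW, sdd_pos p m (le_of_lt hk), abs_of_pos hk]
    refine HasDerivAt.congr_of_eventuallyEq ?_ e
    rw [abs_of_pos ht] at h2 h3 h4
    have hU := p.U_dh ht hx h2 h3
    refine (((dS0 M t).const_mul (X0 x : ℂ)).mul hU).congr_deriv ?_
    rw [wWt, sdd_pos p m ht.le, abs_of_pos ht, hps]
    push_cast; ring

lemma wW_ct {x : ℝ} (hx : x ≠ 0) : Continuous (fun t => wW p m M x t) := by
  have e : (fun t => wW p m M x t) = fun t => (X0 x : ℂ) * (S0 M t : ℂ) *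
      (p.U x (max t 0) + m.U x (max (-t) 0) - p.U x 0) := by
    ext t
    have e0 : p.U x 0 = m.U x 0 := by rw [Prof.U, Prof.U, if_pos rfl, if_pos rfl]
    rw [wW]
    congr 1
    rcases le_or_gt 0 t with ht | ht
    · rw [sdd_pos p m ht, abs_of_nonneg ht, max_eq_left ht, max_eq_right (by linarith), e0]; ring
    · rw [sdd_neg p m ht, abs_of_neg ht, max_eq_right ht.le, max_eq_left (by linarith)]; ring
  rw [e]
  have h1 : Continuous fun t : ℝ => p.U x (max t 0) :=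
    (p.U_ch hx).comp_continuous (by fun_prop) (fun t => mem_Ici.mpr (le_max_right _ _))
  have h2 : Continuous fun t : ℝ => m.U x (max (-t) 0) :=
    (m.U_ch hx).comp_continuous (by fun_prop) (fun t => mem_Ici.mpr (le_max_right _ _))
  have h3 : Continuous fun t : ℝ => (S0 M t : ℂ) := Complex.continuous_ofReal.comp (S0c M)
  fun_prop

lemma weq (z : ℝ × ℝ) (h : z.2 ≠ 0) : wco p m z.1 z.2 * wWx p m M z.1 z.2 = wFl p m M z.1 z.2 := by
  rw [wco, if_neg h, wWx, wFl, gg]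
  have := (sdd p m z.2).cUx (x := z.1) (pos_abs h)
  linear_combination (S0 M z.2 : ℂ)*(X0 z.1 : ℂ)*this

end Pool.Agent.H18.PB
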