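import Pool.Agent.H18.PB.Mk
set_option autoImplicit false

/-! Assembly of the localised singular solution. -/

namespace Pool.Agent.H18.PB

open Complex Set Filter MeasureTheory
open Pool.Agent.W787.PE (cut X0 X1 X2 X0c X1c X2c dX0 dX1 exists_bd ae_prod_ne)
open scoped Topology

variable {α : ℝ} (p m : Prof α) (M : ℝ)

lemma X0_z {x : ℝ} (h : 2 ≤ |x|) : X0 x = 0 := cut.z0 x h
lemma X1_z {x : ℝ} (h : 2 ≤ |x|) : X1 x = 0 := cut.z1 x h
lemma X2_z {x : ℝ} (h : 2 ≤ |x|) : X2 x = 0 := cut.z2 x h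

lemma zx_all {x t : ℝ} (h : 2 ≤ |x|) : wW p m M x t = 0 ∧ wWx p m M x t = 0 ∧ wWt p m M x t = 0 ∧
    wFl p m M x t = 0 ∧ wFlx p m M x t = 0 := by
  refine ⟨?_, ?_, ?_, ?_, ?_⟩
  · rw [wW, X0_z h]; simp
  · rw [wWx, X0_z h, X1_z h]; simp
  · rw [wWt, X0_z h]; simp
  · rw [wFl, gg, X0_z h, X1_z h]; simp
  · rw [wFlx, ggx, X0_z h, X1_z h, X2_z h]; simp

variable {M} in
lemma zt_all (hM : 1 ≤ M) {x t : ℝ} (h : 2 ≤ |M*t|) : wW p m M x t = 0 ∧ wWx p m M x t = 0 ∧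
    wWt p m M x t = 0 ∧ wFl p m M x t = 0 ∧ wFlx p m M x t = 0 := by
  refine ⟨?_, ?_, ?_, ?_, ?_⟩
  · rw [wW, S0_z hM h]; simp
  · rw [wWx, S0_z hM h]; simp
  · rw [wWt, S0_z hM h, S1_z hM h]; simp
  · rw [wFl, S0_z hM h]; simp
  · rw [wFlx, S0_z hM h]; simp

lemma nC (a : ℝ) {N : ℝ} (h : |a| ≤ N) : ‖(a:ℂ)‖ ≤ N := by
  rw [norm_real, Real.norm_eq_abs]; exact h

lemma cx_bd (r : Prof α) (h0 : 0 < α) (h1 : α < 1) {C x h : ℝ} (hC : 1 ≤ C) (hc : ‖r.c x h‖ ≤ C)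
    (hq : ‖r.q‖ ≤ C) (hx : 1 ≤ |x|) (hh : 0 ≤ h) (hh2 : h ≤ 2) :
    ‖r.cx x h‖ ≤ C^2*(6+16*C)*4 := by
  have hx2 : 1 ≤ x^2 := by rw [← sq_abs]; nlinarith
  have hl : h/x^2 ≤ 2 := by rw [div_le_iff₀ (by linarith)]; nlinarith
  have hl0 : 0 ≤ h/x^2 := by positivity
  have a1 : ‖((6-8*α : ℝ):ℂ) + 8*r.q*((h/x^2 : ℝ):ℂ)‖ ≤ 6+16*C := by
    refine (norm_add_le _ _).trans (add_le_add (nC _ ?_) ?_)
    · rw [abs_le]; constructor <;> linarith
    · rw [norm_mul, norm_mul, norm_real, Real.norm_eq_abs, abs_of_nonneg hl0]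
      have : ‖(8:ℂ)‖ = 8 := by norm_num
      rw [this]
      calc 8*‖r.q‖*(h/x^2) ≤ 8*C*2 := by gcongr
        _ = 16*C := by ring
  have a2 : ‖((-2*(h/x^2)/x : ℝ) : ℂ)‖ ≤ 4 := by
    rw [norm_real, Real.norm_eq_abs, abs_div, abs_mul, abs_of_nonneg hl0,
      div_le_iff₀ (by linarith)]
    norm_num
    linarith
  rw [Prof.cx, norm_mul, norm_mul, norm_mul, r.sn, one_mul, norm_pow]
  have hc2 : ‖r.c x h‖^2 ≤ C^2 := pow_le_pow_left₀ (norm_nonneg _) hc 2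
  exact mul_le_mul (mul_le_mul hc2 a1 (norm_nonneg _) (by positivity)) a2 (norm_nonneg _)
    (by positivity)

lemma sdd_s (hps : p.s = 1) (hms : m.s = -1) (t : ℝ) : ‖((sdd p m t).s:ℂ)‖ = 1 := (sdd p m t).sn

lemma bd_all (h0 : 0 < α) (h1 : α < 1) (hM : 1 ≤ M) : ∃ K : ℝ, 0 ≤ K ∧ ∀ x t : ℝ, x ≠ 0 → t ≠ 0 →
    ‖wW p m M x t‖ ≤ K * (x^2+|t|)^(α-1/2) ∧ ‖wWx p m M x t‖ ≤ K * (x^2+|t|)^(α-1) ∧
    ‖wWt p m M x t‖ ≤ K * (x^2+|t|)^(α-3/2) ∧ ‖wFl p m M x t‖ ≤ K * (x^2+|t|)^(α-1) ∧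
    ‖wFlx p m M x t‖ ≤ K * (x^2+|t|)^(α-3/2) := by
  obtain ⟨N, hN, hc⟩ := cbd hM
  obtain ⟨C, hC, hb⟩ := sbds p m h0 h1
  set C4 : ℝ := C^2*(6+16*C)*4 with hC4
  have hC40 : 0 ≤ C4 := by positivity
  refine ⟨1000*N*N*C*(1+C+C4), by positivity, fun x t hx ht => ?_⟩
  have hr : 0 < x^2+|t| := by positivity
  set A : ℝ := (x^2+|t|)^(α-1/2) with hA
  set B : ℝ := (x^2+|t|)^(α-1) with hB
  set E : ℝ := (x^2+|t|)^(α-3/2) with hE
  have A0 : 0 ≤ A := Real.rpow_nonneg hr.le _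
  have B0 : 0 ≤ B := Real.rpow_nonneg hr.le _
  have E0 : 0 ≤ E := Real.rpow_nonneg hr.le _
  by_cases hx2 : 2 ≤ |x|
  · obtain ⟨z1, z2, z3, z4, z5⟩ := zx_all p m M (t := t) hx2
    rw [z1, z2, z3, z4, z5, norm_zero]
    refine ⟨?_, ?_, ?_, ?_, ?_⟩ <;> positivity
  by_cases ht2 : 2 ≤ |M*t|
  · obtain ⟨z1, z2, z3, z4, z5⟩ := zt_all p m hM (x := x) ht2
    rw [z1, z2, z3, z4, z5, norm_zero]
    refine ⟨?_, ?_, ?_, ?_, ?_⟩ <;> positivity
  have ht3 : |t| ≤ 2 := by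
    rw [abs_mul, abs_of_pos (by linarith)] at ht2
    have := abs_nonneg t
    nlinarith
  have hx3 : x^2 ≤ 4 := by rw [← sq_abs]; nlinarith [abs_nonneg x]
  have hr6 : x^2+|t| ≤ 6 := by linarith
  have AB : A ≤ 36*B := by
    have := Pool.Agent.W787.PE.pw hr hr6 (s := 1/2-α) (s' := 1-α) (by linarith) (by linarith)
    rw [neg_sub, neg_sub] at this; exact this
  have AE : A ≤ 36*E := by
    have := Pool.Agent.W787.PE.pw hr hr6 (s := 1/2-α) (s' := 3/2-α) (by linarith) (by linarith)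
    rw [neg_sub, neg_sub] at this; exact this
  have BE : B ≤ 36*E := by
    have := Pool.Agent.W787.PE.pw hr hr6 (s := 1-α) (s' := 3/2-α) (by linarith) (by linarith)
    rw [neg_sub, neg_sub] at this; exact this
  obtain ⟨u, ux, v, uh, cc, -, qq⟩ := hb t x |t| (pos_abs ht)
  obtain ⟨x0, x1, x2, -⟩ := hc x
  obtain ⟨-, -, -, s0, s1, -⟩ := hc t
  have x0' := nC _ x0
  have x1' := nC _ x1
  have x2' := nC _ x2
  have s0' := nC _ s0
  have s1' := nC _ s1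
  have hs := (sdd p m t).sn
  generalize hU : (sdd p m t).U x |t| = U at *
  generalize hUx : (sdd p m t).Ux x |t| = Ux at *
  generalize hV : (sdd p m t).V x |t| = V at *
  generalize hUh : (sdd p m t).Uh x |t| = Uh at *
  have hcx : ‖(X1 x : ℂ) * ((sdd p m t).cx x |t| * U)‖ ≤ N*(C4*(C*A)) := by
    by_cases hx1 : |x| < 1
    · rw [X1, cut.one1 x hx1]; simp; positivity
    · rw [norm_mul, norm_mul]
      have := cx_bd (sdd p m t) h0 h1 hC cc qq (not_lt.mp hx1) (abs_nonneg t) ht3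
      gcongr
  have n1 : 0 ≤ N*N*C := by positivity
  have m1 : N*N*C*A ≤ 36*(N*N*C*B) := by nlinarith
  have m2 : N*N*C*A ≤ 36*(N*N*C*E) := by nlinarith
  have m3 : N*N*C*B ≤ 36*(N*N*C*E) := by nlinarith
  have n2 : 0 ≤ N*N*C*C := by positivity
  have m4 : N*N*C*C*A ≤ 36*(N*N*C*C*B) := by nlinarith
  have m5 : N*N*C*C*A ≤ 36*(N*N*C*C*E) := by nlinarith
  have n3 : 0 ≤ N*N*C*C4 := by positivity
  have m6 : N*N*C*C4*A ≤ 36*(N*N*C*C4*E) := by nlinarith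
  have k1 : 0 ≤ N*N*C*A := by positivity
  have k2 : 0 ≤ N*N*C*B := by positivity
  have k3 : 0 ≤ N*N*C*E := by positivity
  have k4 : 0 ≤ N*N*C*C*A := by positivity
  have k5 : 0 ≤ N*N*C*C*B := by positivity
  have k6 : 0 ≤ N*N*C*C*E := by positivity
  have k7 : 0 ≤ N*N*C*C4*A := by positivity
  have k8 : 0 ≤ N*N*C*C4*B := by positivity
  have k9 : 0 ≤ N*N*C*C4*E := by positivity
  refine ⟨?_, ?_, ?_, ?_, ?_⟩
  · rw [wW, hU, norm_mul, norm_mul]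
    calc _ ≤ N*N*(C*A) := by gcongr
      _ ≤ _ := by linarith
  · rw [wWx, hU, hUx, norm_mul]
    have : ‖(X1 x:ℂ)*U + (X0 x:ℂ)*Ux‖ ≤ N*(C*A) + N*(C*B) := by
      refine (norm_add_le _ _).trans ?_
      rw [norm_mul, norm_mul]; gcongr
    calc _ ≤ N*(N*(C*A) + N*(C*B)) := by gcongr
      _ ≤ _ := by linarith
  · rw [wWt, hU, hUh, norm_mul]
    have : ‖(S1 M t:ℂ)*U + (S0 M t:ℂ)*((sdd p m t).s*Uh)‖ ≤ N*(C*A) + N*(1*(C*E)) := by
      refine (norm_add_le _ _).trans ?_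
      rw [norm_mul, norm_mul, norm_mul, hs]; gcongr
    calc _ ≤ N*(N*(C*A) + N*(1*(C*E))) := by gcongr
      _ ≤ _ := by linarith
  · rw [wFl, gg, hU, hV, norm_mul]
    have : ‖(X1 x:ℂ)*((sdd p m t).c x |t| * U) - (sdd p m t).s*((X0 x:ℂ)*V)‖
        ≤ N*(C*(C*A)) + 1*(N*(C*B)) := by
      refine (norm_sub_le _ _).trans ?_
      rw [norm_mul, norm_mul, norm_mul, norm_mul, hs]; gcongr
    calc _ ≤ N*(N*(C*(C*A)) + 1*(N*(C*B))) := by gcongr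
      _ ≤ _ := by linarith
  · rw [wFlx, ggx, hU, hV, hUh, norm_mul]
    have t1 : ‖(X2 x:ℂ)*((sdd p m t).c x |t| * U)‖ ≤ N*(C*(C*A)) := by
      rw [norm_mul, norm_mul]; gcongr
    have t2 : ‖(X1 x:ℂ)*((sdd p m t).s*V)‖ ≤ N*(1*(C*B)) := by
      rw [norm_mul, norm_mul, hs]; gcongr
    have t3 : ‖((sdd p m t).s:ℂ)*((X1 x:ℂ)*V + (X0 x:ℂ)*Uh)‖ ≤ N*(C*B)+N*(C*E) := by
      rw [norm_mul, hs, one_mul]
      refine (norm_add_le _ _).trans ?_
      rw [norm_mul, norm_mul]; gcongr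
    have : ‖(X2 x:ℂ)*((sdd p m t).c x |t| * U) + (X1 x:ℂ)*((sdd p m t).cx x |t| * U
        - (sdd p m t).s*V) - (sdd p m t).s*((X1 x:ℂ)*V + (X0 x:ℂ)*Uh)‖
        ≤ N*(C*(C*A)) + (N*(C4*(C*A)) + N*(1*(C*B))) + (N*(C*B)+N*(C*E)) := by
      refine (norm_sub_le _ _).trans (add_le_add ((norm_add_le _ _).trans (add_le_add t1 ?_)) t3)
      rw [mul_sub]
      exact (norm_sub_le _ _).trans (add_le_add hcx t2)
    calc _ ≤ N*(N*(C*(C*A)) + (N*(C4*(C*A)) + N*(1*(C*B))) + (N*(C*B)+N*(C*E))) := by gcongr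
      _ ≤ _ := by linarith

lemma f_bd (h0 : 0 < α) (h1 : α < 1/2) (hM : 1 ≤ M) : ∃ K : ℝ, 0 ≤ K ∧ ∀ x t : ℝ, x ≠ 0 → t ≠ 0 →
    ‖wW p m M x t - wWt p m M x t - wFlx p m M x t‖ ≤ K := by
  obtain ⟨N, hN, hc⟩ := cbd hM
  obtain ⟨C, hC, hb⟩ := sbds p m h0 (by linarith)
  set C4 : ℝ := C^2*(6+16*C)*4 with hC4
  have hC40 : 0 ≤ C4 := by positivity
  have hM0 : 0 < M := by linarith
  set R : ℝ := (1/M)^(α-1/2) with hR
  have hR0 : 0 ≤ R := Real.rpow_nonneg (by positivity) _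
  refine ⟨N*N*(C*R) + N*(N*(C*C)) + N*(N*(C4*C)) + 2*(N*(N*C)), by positivity, fun x t hx ht => ?_⟩
  have hr : 0 < x^2+|t| := by positivity
  have e : wW p m M x t - wWt p m M x t - wFlx p m M x t =
      (X0 x : ℂ)*(((S0 M t - S1 M t : ℝ) : ℂ)*(sdd p m t).U x |t|)
      - (S0 M t : ℂ)*((X2 x : ℂ)*((sdd p m t).c x |t| * (sdd p m t).U x |t|))
      - (S0 M t : ℂ)*((X1 x : ℂ)*((sdd p m t).cx x |t| * (sdd p m t).U x |t|))
      + 2*((sdd p m t).s*((S0 M t : ℂ)*((X1 x : ℂ)*(sdd p m t).V x |t|))) := by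
    rw [wW, wWt, wFlx, ggx]; push_cast; ring
  rw [e]
  obtain ⟨u, ux, v, uh, cc, -, qq⟩ := hb t x |t| (pos_abs ht)
  obtain ⟨x0, x1, x2, -⟩ := hc x
  obtain ⟨-, -, -, s0, s1, s01⟩ := hc t
  have x0' := nC _ x0
  have x1' := nC _ x1
  have x2' := nC _ x2
  have s0' := nC _ s0
  have s01' := nC _ s01
  have hs := (sdd p m t).sn
  have big1 : 1 ≤ |x| → (x^2+|t|)^(α-1/2) ≤ 1 ∧ (x^2+|t|)^(α-1) ≤ 1 := by
    intro hx1
    have : 1 ≤ x^2+|t| := by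
      have : 1 ≤ x^2 := by rw [← sq_abs]; nlinarith
      linarith [abs_nonneg t]
    exact ⟨Real.rpow_le_one_of_one_le_of_nonpos this (by linarith),
      Real.rpow_le_one_of_one_le_of_nonpos this (by linarith)⟩
  have t1 : ‖(X0 x : ℂ)*(((S0 M t - S1 M t : ℝ) : ℂ)*(sdd p m t).U x |t|)‖ ≤ N*N*(C*R) := by
    by_cases hMt : |M*t| < 1
    · rw [S01_z hM hMt]; simp; positivity
    · have h2 : 1/M ≤ x^2+|t| := by
        rw [abs_mul, abs_of_pos hM0, not_lt] at hMt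
        rw [div_le_iff₀ hM0]
        nlinarith [sq_nonneg x, mul_nonneg (sq_nonneg x) hM0.le]
      have h3 : (x^2+|t|)^(α-1/2) ≤ R :=
        Real.rpow_le_rpow_of_nonpos (by positivity) h2 (by linarith)
      rw [norm_mul, norm_mul, mul_assoc N N]
      have hu : ‖(sdd p m t).U x |t|‖ ≤ C*R := u.trans (mul_le_mul_of_nonneg_left h3 (by linarith))
      gcongr
  have t2 : ‖(S0 M t : ℂ)*((X2 x : ℂ)*((sdd p m t).c x |t| * (sdd p m t).U x |t|))‖ ≤ N*(N*(C*C)) := by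
    by_cases hx1 : |x| < 1
    · rw [X2, cut.one2 x hx1]; simp; positivity
    · have hu : ‖(sdd p m t).U x |t|‖ ≤ C :=
        u.trans (mul_le_of_le_one_right (by linarith) (big1 (not_lt.mp hx1)).1)
      rw [norm_mul, norm_mul, norm_mul]; gcongr
  have t3 : ‖(S0 M t : ℂ)*((X1 x : ℂ)*((sdd p m t).cx x |t| * (sdd p m t).U x |t|))‖
      ≤ N*(N*(C4*C)) := by
    by_cases hx1 : |x| < 1
    · rw [X1, cut.one1 x hx1]; simp; positivity
    by_cases hMt : 2 ≤ |M*t|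
    · rw [S0_z hM hMt]; simp; positivity
    · have ht3 : |t| ≤ 2 := by
        rw [abs_mul, abs_of_pos (by linarith)] at hMt
        have := abs_nonneg t
        nlinarith
      have hu : ‖(sdd p m t).U x |t|‖ ≤ C :=
        u.trans (mul_le_of_le_one_right (by linarith) (big1 (not_lt.mp hx1)).1)
      have := cx_bd (sdd p m t) h0 (by linarith) hC cc qq (not_lt.mp hx1) (abs_nonneg t) ht3
      rw [norm_mul, norm_mul, norm_mul]; gcongr
  have t4 : ‖2*((sdd p m t).s*((S0 M t : ℂ)*((X1 x : ℂ)*(sdd p m t).V x |t|)))‖ ≤ 2*(N*(N*C)) := by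
    by_cases hx1 : |x| < 1
    · rw [X1, cut.one1 x hx1]; simp; positivity
    · have hv : ‖(sdd p m t).V x |t|‖ ≤ C :=
        v.trans (mul_le_of_le_one_right (by linarith) (big1 (not_lt.mp hx1)).2)
      rw [norm_mul, norm_mul, norm_mul, norm_mul, hs, one_mul]
      have : ‖(2:ℂ)‖ = 2 := by norm_num
      rw [this]; gcongr
  refine (norm_add_le _ _).trans (add_le_add ?_ t4)
  refine (norm_sub_le _ _).trans (add_le_add ?_ t3)
  exact (norm_sub_le _ _).trans (add_le_add t1 t2)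

lemma low_all (h0 : 0 < α) (h1 : α < 1/2) (hM : 1 ≤ M) :
    ∃ c0 η ε0 : ℝ, 0 < c0 ∧ 0 < η ∧ 0 < ε0 ∧ ∀ ε x t : ℝ, 0 < ε → ε ≤ ε0 → ε ≤ x → x ≤ 2*ε →
    0 ≤ t → t ≤ η*ε^2 → c0 * ε^(-(1-2*α)) ≤ (wW p m M x t).re := by
  obtain ⟨η, hη, hl⟩ := p.low h0 h1
  have hM0 : 0 < M := by linarith
  refine ⟨α/2, η, min (1/2) (1/(M*η)), by positivity, hη, by positivity,
    fun ε x t hε hε0 hx1 hx2 ht htη => ?_⟩
  have e1 : ε ≤ 1/2 := hε0.trans (min_le_left _ _)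
  have e2 : ε ≤ 1/(M*η) := hε0.trans (min_le_right _ _)
  have hx0 : 0 < x := by linarith
  have hX : X0 x = 1 := cut.one x (by rw [abs_of_pos hx0]; linarith)
  have hMt : M*t ≤ 1 := by
    rw [le_div_iff₀ (by positivity)] at e2
    have a1 : M*t ≤ M*(η*ε^2) := mul_le_mul_of_nonneg_left htη hM0.le
    have a2 : M*(η*ε^2) = (ε*(M*η))*ε := by ring
    have a3 : 0 ≤ ε*(M*η) := by positivity
    nlinarith
  have hS : S0 M t = Real.exp t := by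
    rw [S0, cut.one _ (by rw [abs_of_nonneg (by positivity)]; exact hMt), mul_one]
  have hl' := hl ε x t hε hx1 hx2 ht htη
  have h1e : 1 ≤ Real.exp t := Real.one_le_exp ht
  have hpos : 0 < (α/2)*ε^(2*α-1) := by
    have := Real.rpow_pos_of_pos hε (2*α-1)
    positivity
  rw [wW, sdd_pos p m ht, abs_of_nonneg ht, hX, hS, ofReal_one, one_mul, re_ofReal_mul,
    show -(1-2*α) = 2*α-1 by ring]
  nlinarith

/-- the coefficient is invariant under the parabolic scaling -/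
lemma wco_hom {l x t : ℝ} (hl : 0 < l) : wco p m (l*x) (l^2*t) = wco p m x t := by
  have hl2 : 0 < l^2 := by positivity
  by_cases ht : t = 0
  · rw [ht, mul_zero, wco, wco, if_pos rfl, if_pos rfl]
  · have h1 : sdd p m (l^2*t) = sdd p m t := by
      unfold sdd
      by_cases h : 0 ≤ t
      · rw [if_pos h, if_pos (by positivity)]
      · rw [if_neg h, if_neg (by rw [not_le] at h ⊢; exact mul_neg_of_pos_of_neg hl2 h)]
    have ht' : 0 < |t| := abs_pos.mpr ht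
    have h2 : (l*x)^2/|l^2*t| = x^2/|t| := by
      rw [abs_mul, abs_of_pos hl2]; field_simp
    rw [wco, wco, if_neg ht, if_neg (mul_ne_zero hl2.ne' ht), h1, Prof.c, Prof.c, h2]

/-- the solution made from two profiles -/
theorem mkSol (h0 : 0 < α) (h1 : α < 1/2) (hps : p.s = 1) (hms : m.s = -1) :
    ∃ D : Sol (1-2*α), ∀ l x t : ℝ, 0 < l → D.co (l*x) (l^2*t) = D.co x t := by
  set M : ℝ := 4*(p.T+m.T) with hM
  have hpT := p.hT
  have hmT := m.hT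
  have hM1 : 1 ≤ M := by linarith
  have hM' : 4*(p.T+m.T) ≤ M := le_of_eq hM.symm
  have x1 : -((1-2*α)/2) = α-1/2 := by ring
  have x2 : -((1+(1-2*α))/2) = α-1 := by ring
  have x3 : -((2+(1-2*α))/2) = α-3/2 := by ring
  refine ⟨⟨wW p m M, wWx p m M, wWt p m M, wFl p m M, wFlx p m M, wco p m,
    wW_m p m M, wWx_m p m M, wWt_m p m M, wFl_m p m M, wFlx_m p m M, wco_m p m,
    ?_, f_bd p m M h0 h1 hM1, fun x t h => zx_all p m M h, fun x t h => zt_all p m hM1 (big hM1 h),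
    fun t ht => wW_cx p m M ht, fun t ht => wW_dx p m M ht,
    fun t ht => wFl_cx p m M hM' ht, fun t ht => wFl_dx p m M hM' ht,
    fun x hx => wW_ct p m M hx, fun x hx => wW_dt p m M hps hms hx, ?_, ?_, low_all p m M h0 h1 hM1⟩,
    fun l x t hl => wco_hom p m hl⟩
  · rw [x1, x2, x3]
    exact bd_all p m M h0 (by linarith) hM1
  · filter_upwards [ae_prod_ne] with z hz
    exact weq p m M z hz.2
  · obtain ⟨C, hC, hb⟩ := sbds p m h0 (by linarith)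
    refine ⟨C, hC, fun x t => ?_⟩
    by_cases ht : t = 0
    · rw [wco, if_pos ht]
      refine ⟨by simpa using hC, ?_⟩
      rw [one_re]; exact inv_le_one_of_one_le₀ hC
    · rw [wco, if_neg ht]
      obtain ⟨-, -, -, -, c1, c2, -⟩ := hb t x |t| (pos_abs ht)
      exact ⟨c1, c2⟩

end Pool.Agent.H18.PB
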