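import Pool.Agent.H18.PB.Prof
set_option autoImplicit false

/-! The homogeneous functions given by a profile. -/

namespace Pool.Agent.H18.PB

open Complex Set Filter
open scoped Topology

namespace Prof

variable {α : ℝ} (p : Prof α)

noncomputable def D (τ : ℝ) : ℂ := 2*p.P τ + 4*τ*p.Q τ
noncomputable def G1 (τ : ℝ) : ℂ := ((α:ℂ)-1)*p.P τ - τ*p.Q τ

noncomputable def U (x h : ℝ) : ℂ :=
  if h = 0 then 2*x*(((x^2)^(α-1) : ℝ) : ℂ)*α else 2*x*((h^(α-1) : ℝ) : ℂ)*p.P (x^2/h)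
noncomputable def Ux (x h : ℝ) : ℂ := ((h^(α-1) : ℝ) : ℂ)*p.D (x^2/h)
noncomputable def V (x h : ℝ) : ℂ := ((h^(α-1) : ℝ) : ℂ)*p.G (x^2/h)
noncomputable def Uh (x h : ℝ) : ℂ := 2*x*((h^(α-2) : ℝ) : ℂ)*p.G1 (x^2/h)
noncomputable def c (x h : ℝ) : ℂ := -p.s*p.G (x^2/h)/p.D (x^2/h)
noncomputable def cx (x h : ℝ) : ℂ :=
  p.s*(p.c x h)^2*(((6-8*α : ℝ):ℂ) + 8*p.q*((h/x^2 : ℝ):ℂ))*((-2*(h/x^2)/x : ℝ) : ℂ)

lemma mD : Measurable p.D :=
  (p.mP.const_mul 2).add (((Complex.measurable_ofReal).const_mul 4).mul p.mQ)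
lemma mG1 : Measurable p.G1 := (p.mP.const_mul _).sub (Complex.measurable_ofReal.mul p.mQ)

lemma tau_meas : Measurable (fun z : ℝ × ℝ => z.1^2/|z.2|) := by fun_prop

lemma rp_meas (e : ℝ) : Measurable (fun z : ℝ × ℝ => ((|z.2|^e : ℝ) : ℂ)) := by
  exact Complex.measurable_ofReal.comp ((measurable_snd.abs).pow_const e)

lemma mU : Measurable (fun z : ℝ × ℝ => p.U z.1 |z.2|) := by
  unfold U
  refine Measurable.ite ?_ ?_ ?_
  · exact measurableSet_eq_fun (by fun_prop) measurable_const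
  · exact ((by fun_prop : Measurable (fun z : ℝ × ℝ => (2:ℂ)*(z.1:ℂ))).mul
      (Complex.measurable_ofReal.comp ((measurable_fst.pow_const 2).pow_const (α-1)))).mul_const _
  · exact ((by fun_prop : Measurable (fun z : ℝ × ℝ => (2:ℂ)*(z.1:ℂ))).mul (rp_meas _)).mul
      (p.mP.comp tau_meas)
lemma mUx : Measurable (fun z : ℝ × ℝ => p.Ux z.1 |z.2|) :=
  (rp_meas _).mul (p.mD.comp tau_meas)
lemma mV : Measurable (fun z : ℝ × ℝ => p.V z.1 |z.2|) :=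
  (rp_meas _).mul (p.mG.comp tau_meas)
lemma mUh : Measurable (fun z : ℝ × ℝ => p.Uh z.1 |z.2|) :=
  ((by fun_prop : Measurable (fun z : ℝ × ℝ => (2:ℂ)*(z.1:ℂ))).mul (rp_meas _)).mul
      (p.mG1.comp tau_meas)
lemma mc : Measurable (fun z : ℝ × ℝ => p.c z.1 |z.2|) :=
  ((p.mG.comp tau_meas).const_mul _).div (p.mD.comp tau_meas)
lemma mcx : Measurable (fun z : ℝ × ℝ => p.cx z.1 |z.2|) := by
  unfold cx
  refine Measurable.mul (Measurable.mul ((p.mc.pow_const 2).const_mul _) ?_) ?_ <;> fun_prop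

/-- the formula far from the time axis -/
lemma U_III {x h : ℝ} (hh : 0 ≤ h) (hx : p.T*h < x^2) :
    p.U x h = 2*x*(((x^2)^(α-1) : ℝ) : ℂ)*((α - p.q*((h/x^2:ℝ):ℂ)) * exp (p.q*((h/x^2:ℝ):ℂ))) := by
  rcases hh.eq_or_lt with h0 | h0
  · subst h0
    rw [U, if_pos rfl]; simp
  · have hτ : p.T < x^2/h := by rwa [lt_div_iff₀ h0]
    rw [U, if_neg h0.ne', p.P3 _ hτ, inv_div]
    have e : h^(α-1)*(x^2/h)^(α-1) = (x^2)^(α-1) := by
      rw [← Real.mul_rpow h0.le (by positivity)]; congr 1; field_simp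
    rw [← e]; push_cast; ring

lemma D_III {τ : ℝ} (hτ : p.T < τ) : p.D τ = ((τ^(α-1) : ℝ) : ℂ) * exp (p.q*(τ⁻¹:ℝ)) *
    (2*α*(2*α-1) + ((6-8*α : ℝ):ℂ)*p.q*(τ⁻¹:ℝ) + 4*p.q^2*((τ⁻¹:ℝ):ℂ)^2) := by
  have hτ0 : 0 < τ := lt_trans p.T0 hτ
  have tq : (τ:ℂ) * ((τ^(α-2) : ℝ) : ℂ) = ((τ^(α-1) : ℝ) : ℂ) := by
    rw [← ofReal_mul]; congr 1
    rw [show α-1 = 1+(α-2) by ring, Real.rpow_add hτ0, Real.rpow_one]
  rw [D, p.P3 _ hτ, p.Q3 _ hτ, ← tq]; push_cast; ring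

lemma D_ne {τ : ℝ} (hτ : 0 ≤ τ) : p.D τ ≠ 0 := by
  obtain ⟨C, -, h⟩ := p.ell
  exact (h τ hτ).1

lemma c_III {τ : ℝ} (hτ : p.T < τ) : -p.s*p.G τ/p.D τ = -p.s*p.q/
    (2*α*(2*α-1) + ((6-8*α : ℝ):ℂ)*p.q*(τ⁻¹:ℝ) + 4*p.q^2*((τ⁻¹:ℝ):ℂ)^2) := by
  have hτ0 : 0 < τ := lt_trans p.T0 hτ
  have h1 : ((τ^(α-1) : ℝ) : ℂ) ≠ 0 := by exact_mod_cast (Real.rpow_pos_of_pos hτ0 _).ne'
  have h2 := exp_ne_zero (p.q*(τ⁻¹:ℝ))
  have h3 := p.D_ne hτ0.le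
  rw [p.D_III hτ] at h3 ⊢
  have h4 := right_ne_zero_of_mul h3
  rw [p.G3 _ hτ]
  field_simp

lemma dc {x h : ℝ} (hh : 0 < h) (hx : p.T*h < x^2) :
    HasDerivAt (fun x => p.c x h) (p.cx x h) x := by
  have hx0 : x ≠ 0 := by
    intro h0; rw [h0] at hx; have := mul_pos p.T0 hh; norm_num at hx; linarith
  set E : ℝ → ℂ := fun x => 2*α*(2*α-1) + ((6-8*α : ℝ):ℂ)*p.q*((h/x^2:ℝ):ℂ)
    + 4*p.q^2*((h/x^2:ℝ):ℂ)^2 with hE
  have hev : (fun x => p.c x h) =ᶠ[𝓝 x] fun x => -p.s*p.q/E x := by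
    have : ∀ᶠ y in 𝓝 x, p.T*h < y^2 :=
      (continuous_pow 2).continuousAt.eventually (lt_mem_nhds hx)
    filter_upwards [this] with y hy
    have hτ : p.T < y^2/h := by rwa [lt_div_iff₀ hh]
    rw [c, p.c_III hτ, inv_div]
  have hcE : p.c x h = -p.s*p.q/E x := hev.eq_of_nhds
  have hτ : p.T < x^2/h := by rwa [lt_div_iff₀ hh]
  have hEne : E x ≠ 0 := by
    have h3 := p.D_ne (lt_trans p.T0 hτ).le
    rw [p.D_III hτ, inv_div] at h3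
    exact right_ne_zero_of_mul h3
  have hl : HasDerivAt (fun x : ℝ => h/x^2) (-2*(h/x^2)/x) x := by
    have := (hasDerivAt_const x h).div (hasDerivAt_pow 2 x) (by positivity)
    refine this.congr_deriv ?_
    field_simp; ring
  have hlC : HasDerivAt (fun x : ℝ => ((h/x^2 : ℝ):ℂ)) ((-2*(h/x^2)/x : ℝ):ℂ) x := hl.ofReal_comp
  have hEd : HasDerivAt E (((6-8*α : ℝ):ℂ)*p.q*((-2*(h/x^2)/x : ℝ):ℂ)
      + 4*p.q^2*(2*((h/x^2:ℝ):ℂ)*((-2*(h/x^2)/x : ℝ):ℂ))) x := by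
    have h1 := hlC.const_mul (((6-8*α : ℝ):ℂ)*p.q)
    have h2 := (hlC.pow 2).const_mul (4*p.q^2)
    refine ((h1.const_add (2*α*(2*α-1) : ℂ)).add h2).congr_deriv ?_
    simp only [Nat.cast_ofNat, pow_one, Nat.add_one_sub_one]
  have hq : HasDerivAt (fun x => -p.s*p.q/E x) (p.cx x h) x := by
    refine ((hasDerivAt_const x (-(p.s:ℂ)*p.q)).div hEd hEne).congr_deriv ?_
    rw [cx, hcE]
    have hss := p.ss
    have e2 : (-(p.s:ℂ)*p.q/E x)^2 = p.q^2/(E x)^2 := by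
      rw [div_pow]; congr 1; linear_combination p.q^2*hss
    rw [e2]
    generalize ((-2*(h/x^2)/x : ℝ):ℂ) = L
    generalize ((h/x^2:ℝ):ℂ) = l
    generalize E x = e at hEne ⊢
    field_simp
    ring
  exact hq.congr_of_eventuallyEq hev

lemma U_pos {x h : ℝ} (hh : h ≠ 0) : p.U x h = 2*x*((h^(α-1) : ℝ) : ℂ)*p.P (x^2/h) := by
  rw [U, if_neg hh]

lemma cUx {x h : ℝ} (hh : 0 < h) : p.c x h * p.Ux x h = -p.s*p.V x h := by
  rw [c, Ux, V]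
  have := p.D_ne (τ := x^2/h) (by positivity)
  field_simp

lemma U_cx {h : ℝ} (hh : 0 < h) : Continuous (fun x => p.U x h) := by
  have e : (fun x => p.U x h) = fun x : ℝ => 2*x*((h^(α-1) : ℝ) : ℂ)*p.P (x^2/h) := by
    ext x; exact p.U_pos hh.ne'
  rw [e]
  have : Continuous fun x : ℝ => p.P (x^2/h) :=
    p.cP.comp_continuous (by fun_prop) (fun x => by rw [mem_Ici]; positivity)
  fun_prop

lemma V_cx {h : ℝ} (hh : 0 < h) : Continuous (fun x => p.V x h) := by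
  have : Continuous fun x : ℝ => p.G (x^2/h) :=
    p.cG.comp_continuous (by fun_prop) (fun x => by rw [mem_Ici]; positivity)
  unfold V
  fun_prop

lemma tau_dx {h : ℝ} (hh : 0 < h) (x : ℝ) : HasDerivAt (fun x : ℝ => x^2/h) (2*x/h) x := by
  have := (hasDerivAt_pow 2 x).div_const h
  simpa using this

lemma U_dx {x h : ℝ} (hh : 0 < h) (hx : x ≠ 0) (h1 : x^2/h ≠ 1) (h2 : x^2/h ≠ p.T) :
    HasDerivAt (fun x => p.U x h) (p.Ux x h) x := by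
  have e : (fun x => p.U x h) = fun x : ℝ => ((2*x : ℝ):ℂ)*((h^(α-1) : ℝ) : ℂ)*p.P (x^2/h) := by
    ext x; rw [p.U_pos hh.ne']; push_cast; ring
  rw [e]
  have hP := (p.dP (x^2/h) (by positivity) h1 h2).scomp x (tau_dx hh x)
  have h3 : HasDerivAt (fun x : ℝ => ((2*x : ℝ):ℂ)) 2 x := by
    have := ((hasDerivAt_id x).const_mul 2).ofReal_comp
    simpa using this
  refine ((h3.mul_const ((h^(α-1) : ℝ) : ℂ)).mul hP).congr_deriv ?_
  have hhC : (h:ℂ) ≠ 0 := by exact_mod_cast hh.ne'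
  rw [Ux, D]
  simp only [Function.comp, real_smul]
  push_cast
  field_simp
  ring

lemma V_dx {x h : ℝ} (hh : 0 < h) (hx : x ≠ 0) (h1 : x^2/h ≠ 1) (h2 : x^2/h ≠ p.T) :
    HasDerivAt (fun x => p.V x h) (p.Uh x h) x := by
  have hP := (p.dG (x^2/h) (by positivity) h1 h2).scomp x (tau_dx hh x)
  refine (hP.const_mul ((h^(α-1) : ℝ) : ℂ)).congr_deriv ?_
  have hhC : (h:ℂ) ≠ 0 := by exact_mod_cast hh.ne'
  have e : ((h^(α-1) : ℝ) : ℂ) = h*((h^(α-2) : ℝ) : ℂ) := by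
    rw [← ofReal_mul]; congr 1
    rw [show α-1 = 1+(α-2) by ring, Real.rpow_add hh, Real.rpow_one]
  rw [Uh, G1, e]
  simp only [real_smul]
  push_cast
  field_simp

lemma tau_dh {h : ℝ} (hh : 0 < h) (x : ℝ) : HasDerivAt (fun h : ℝ => x^2/h) (-(x^2/h)/h) h := by
  have := (hasDerivAt_const h (x^2)).div (hasDerivAt_id h) hh.ne'
  refine this.congr_deriv ?_
  simp only [id]
  field_simp; ring

lemma U_dh {x h : ℝ} (hh : 0 < h) (hx : x ≠ 0) (h1 : x^2/h ≠ 1) (h2 : x^2/h ≠ p.T) :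
    HasDerivAt (fun h => p.U x h) (p.Uh x h) h := by
  have e : (fun h => p.U x h) =ᶠ[𝓝 h] fun h : ℝ => ((2*x : ℝ):ℂ)*((h^(α-1) : ℝ) : ℂ)*p.P (x^2/h) := by
    filter_upwards [lt_mem_nhds hh] with k hk
    rw [p.U_pos (ne_of_gt hk)]; push_cast; ring
  refine HasDerivAt.congr_of_eventuallyEq ?_ e
  have hP := (p.dP (x^2/h) (by positivity) h1 h2).scomp h (tau_dh hh x)
  have h3 : HasDerivAt (fun h : ℝ => ((h^(α-1) : ℝ):ℂ)) (((α-1)*h^(α-2) : ℝ):ℂ) h := by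
    have := (Real.hasDerivAt_rpow_const (x := h) (p := α-1) (Or.inl hh.ne')).ofReal_comp
    rw [show α-1-1 = α-2 by ring] at this
    exact this
  refine ((h3.const_mul ((2*x : ℝ):ℂ)).mul hP).congr_deriv ?_
  have hhC : (h:ℂ) ≠ 0 := by exact_mod_cast hh.ne'
  have e : ((h^(α-1) : ℝ) : ℂ) = h*((h^(α-2) : ℝ) : ℂ) := by
    rw [← ofReal_mul]; congr 1
    rw [show α-1 = 1+(α-2) by ring, Real.rpow_add hh, Real.rpow_one]
  rw [Uh, G1, e]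
  simp only [Function.comp, real_smul]
  push_cast
  field_simp
  ring

lemma U_ch {x : ℝ} (hx : x ≠ 0) : ContinuousOn (fun h => p.U x h) (Ici 0) := by
  intro h hh
  rcases (mem_Ici.mp hh).eq_or_lt with h0 | h0
  · subst h0
    have hev : (fun h => p.U x h) =ᶠ[𝓝[Ici 0] 0] fun h : ℝ => 2*x*(((x^2)^(α-1) : ℝ) : ℂ)*
        ((α - p.q*((h/x^2:ℝ):ℂ)) * exp (p.q*((h/x^2:ℝ):ℂ))) := by
      have hlt : ∀ᶠ k in 𝓝[Ici 0] (0:ℝ), p.T*k < x^2 := by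
        apply nhdsWithin_le_nhds
        have h1 : ContinuousAt (fun k : ℝ => p.T*k) 0 := by fun_prop
        have h2 : (fun k : ℝ => p.T*k) 0 < x^2 := by
          simp only [mul_zero]; positivity
        exact h1.eventually (gt_mem_nhds h2)
      filter_upwards [hlt, self_mem_nhdsWithin] with k hk hk0
      exact p.U_III hk0 hk
    refine ContinuousWithinAt.congr_of_eventuallyEq ?_ hev (hev.eq_of_nhdsWithin hh)
    apply Continuous.continuousWithinAt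
    fun_prop
  · apply ContinuousAt.continuousWithinAt
    have e : (fun h => p.U x h) =ᶠ[𝓝 h] fun h : ℝ => 2*x*((h^(α-1) : ℝ) : ℂ)*p.P (x^2/h) := by
      filter_upwards [lt_mem_nhds h0] with k hk
      rw [p.U_pos (ne_of_gt hk)]
    refine ContinuousAt.congr ?_ e.symm
    have h1 : ContinuousAt (fun h : ℝ => p.P (x^2/h)) h := by
      have hτ : 0 < x^2/h := by positivity
      have hP : ContinuousAt p.P (x^2/h) := p.cP.continuousAt (Ici_mem_nhds hτ)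
      exact hP.comp (continuousAt_const.div continuousAt_id h0.ne')
    have h2 : ContinuousAt (fun h : ℝ => ((h^(α-1) : ℝ) : ℂ)) h :=
      Complex.continuous_ofReal.continuousAt.comp
        (Real.continuousAt_rpow_const h (α-1) (Or.inl h0.ne'))
    exact (continuousAt_const.mul h2).mul h1

/-- the bounds -/
lemma bds (h0 : 0 < α) (h1 : α < 1) : ∃ C : ℝ, 1 ≤ C ∧ ∀ x h : ℝ, 0 < h →
    ‖p.U x h‖ ≤ C * (x^2+h)^(α-1/2) ∧ ‖p.Ux x h‖ ≤ C * (x^2+h)^(α-1) ∧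
    ‖p.V x h‖ ≤ C * (x^2+h)^(α-1) ∧ ‖p.Uh x h‖ ≤ C * (x^2+h)^(α-3/2) ∧
    ‖p.c x h‖ ≤ C ∧ C⁻¹ ≤ (p.c x h).re := by
  obtain ⟨C, hC, hb⟩ := p.prof_bd h0 h1
  obtain ⟨C', hC', hc⟩ := p.ell
  refine ⟨2*C+C', by linarith, fun x h hh => ?_⟩
  have hτ : 0 ≤ x^2/h := by positivity
  obtain ⟨b1, b2, b3, b4⟩ := hb (x^2/h) hτ
  obtain ⟨-, c1, c2⟩ := hc (x^2/h) hτ
  have hr : 0 < x^2+h := by positivity
  have er : x^2+h = h*(1+x^2/h) := by field_simp; ring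
  have hx : |x| ≤ (x^2+h)^(1/2:ℝ) := by
    rw [← Real.sqrt_eq_rpow]
    exact Real.abs_le_sqrt (by linarith)
  have key : ∀ (e : ℝ) (w : ℂ), ‖w‖ ≤ C*(1+x^2/h)^e → ‖((h^e : ℝ):ℂ)*w‖ ≤ C*(x^2+h)^e := by
    intro e w hw
    rw [norm_mul, norm_real, Real.norm_eq_abs, abs_of_pos (Real.rpow_pos_of_pos hh _), er,
      Real.mul_rpow hh.le (by positivity)]
    calc h^e*‖w‖ ≤ h^e*(C*(1+x^2/h)^e) := mul_le_mul_of_nonneg_left hw (Real.rpow_nonneg hh.le _)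
      _ = _ := by ring
  have key2 : ∀ (e e' : ℝ) (w : ℂ), e' = 1/2+e → ‖w‖ ≤ C*(x^2+h)^e →
      ‖2*(x:ℂ)*w‖ ≤ (2*C+C')*(x^2+h)^e' := by
    intro e e' w he hw
    rw [he, Real.rpow_add hr, norm_mul, norm_mul, norm_real, Real.norm_eq_abs]
    have p1 : 0 ≤ (x^2+h)^e := Real.rpow_nonneg hr.le _
    have p2 : 0 ≤ (x^2+h)^(1/2:ℝ) := Real.rpow_nonneg hr.le _
    have n2 : ‖(2:ℂ)‖ = 2 := by norm_num
    rw [n2]
    calc 2*|x| * ‖w‖ ≤ 2*(x^2+h)^(1/2:ℝ)*(C*(x^2+h)^e) := by gcongr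
      _ = 2*C*((x^2+h)^(1/2:ℝ)*(x^2+h)^e) := by ring
      _ ≤ _ := mul_le_mul_of_nonneg_right (by linarith) (by positivity)
  have key3 : ∀ (e : ℝ) (w : ℂ), ‖w‖ ≤ C*(x^2+h)^e → ‖w‖ ≤ (2*C+C')*(x^2+h)^e := by
    intro e w hw
    exact hw.trans (mul_le_mul_of_nonneg_right (by linarith) (Real.rpow_nonneg hr.le _))
  refine ⟨?_, key3 _ _ (key _ _ b3), key3 _ _ (key _ _ b2), ?_, c1.trans (by linarith), le_trans ?_ c2⟩
  · rw [p.U_pos hh.ne', mul_assoc (2*(x:ℂ))]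
    exact key2 (α-1) _ _ (by ring) (key _ _ b1)
  · rw [Uh, mul_assoc (2*(x:ℂ))]
    exact key2 (α-2) _ _ (by ring) (key _ _ b4)
  · exact inv_anti₀ (by linarith) (by linarith)

/-- the lower bound -/
lemma low (h0 : 0 < α) (h1 : α < 1/2) : ∃ η : ℝ, 0 < η ∧ ∀ ε x h : ℝ, 0 < ε → ε ≤ x → x ≤ 2*ε →
    0 ≤ h → h ≤ η*ε^2 → (α/2) * ε^(2*α-1) ≤ (p.U x h).re := by
  have hc : ContinuousAt (fun l : ℝ => (((α:ℂ) - p.q*(l:ℂ)) * exp (p.q*(l:ℂ))).re) 0 := by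
    apply Continuous.continuousAt; fun_prop
  have h2 : α/2 < (fun l : ℝ => (((α:ℂ) - p.q*(l:ℂ)) * exp (p.q*(l:ℂ))).re) 0 := by
    simp only [ofReal_zero, mul_zero, sub_zero, exp_zero, mul_one, ofReal_re]
    linarith
  have hev : ∀ᶠ (l : ℝ) in 𝓝 (0:ℝ), α/2 < (((α:ℂ) - p.q*(l:ℂ)) * exp (p.q*(l:ℂ))).re :=
    hc.eventually (lt_mem_nhds h2)
  obtain ⟨r, hr, hball⟩ := Metric.eventually_nhds_iff.mp hev
  have hT := p.T0
  refine ⟨min (r/2) (1/(2*p.T)), by positivity, fun ε x h hε hx1 hx2 hh hη => ?_⟩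
  have hx0 : 0 < x := by linarith
  have hex : ε^2 ≤ x^2 := pow_le_pow_left₀ hε.le hx1 2
  have hη1 : h ≤ (r/2)*x^2 := hη.trans (mul_le_mul (min_le_left _ _) hex (by positivity) (by positivity))
  have hη2 : h ≤ (1/(2*p.T))*x^2 :=
    hη.trans (mul_le_mul (min_le_right _ _) hex (by positivity) (by positivity))
  have hTh : p.T*h < x^2 := by
    have : p.T*h ≤ p.T*((1/(2*p.T))*x^2) := mul_le_mul_of_nonneg_left hη2 hT.le
    have e : p.T*((1/(2*p.T))*x^2) = x^2/2 := by field_simp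
    have : 0 < x^2 := by positivity
    linarith
  rw [p.U_III hh hTh]
  have hl : α/2 < (((α:ℂ) - p.q*((h/x^2:ℝ):ℂ)) * exp (p.q*((h/x^2:ℝ):ℂ))).re := by
    apply hball
    rw [Real.dist_eq, sub_zero, abs_of_nonneg (by positivity), div_lt_iff₀ (by positivity)]
    have : 0 < r/2*x^2 := by positivity
    linarith
  have e : (2:ℂ)*(x:ℂ)*(((x^2)^(α-1) : ℝ) : ℂ) = ((2*x^(2*α-1) : ℝ) : ℂ) := by
    rw [← Real.rpow_natCast x 2, ← Real.rpow_mul hx0.le, show 2*α-1 = 1 + (((2:ℕ):ℝ)*(α-1)) by push_cast; ring,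
      Real.rpow_add hx0, Real.rpow_one]
    push_cast; ring
  rw [e, re_ofReal_mul]
  have p1 : (2*ε)^(2*α-1) ≤ x^(2*α-1) := Real.rpow_le_rpow_of_nonpos hx0 hx2 (by linarith)
  rw [Real.mul_rpow (by norm_num) hε.le] at p1
  have p2 : (1/2:ℝ) ≤ 2^(2*α-1) := by
    have : (2:ℝ)^(-1:ℝ) ≤ 2^(2*α-1) := Real.rpow_le_rpow_of_exponent_le (by norm_num) (by linarith)
    rw [Real.rpow_neg_one] at this
    linarith
  have p3 : 0 < ε^(2*α-1) := Real.rpow_pos_of_pos hε _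
  have p4 : ε^(2*α-1) ≤ 2*x^(2*α-1) := by nlinarith
  calc α/2*ε^(2*α-1) ≤ (α/2)*(2*x^(2*α-1)) := mul_le_mul_of_nonneg_left p4 (by linarith)
    _ = 2*x^(2*α-1)*(α/2) := by ring
    _ ≤ _ := mul_le_mul_of_nonneg_left hl.le (by positivity)

end Prof

end Pool.Agent.H18.PB
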