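import Pool.Agent.H18.PB.Main
set_option autoImplicit false

/-! Profiles of homogeneous solutions, on one side of `t = 0`. -/

namespace Pool.Agent.H18.PB

open Complex Set Filter
open scoped Topology

/-- A profile: `P = Z'`, `G = α Z - τ Z'`, `Q = Z''`. -/
structure Prof (α : ℝ) where
  s : ℝ
  hs : s = 1 ∨ s = -1
  T : ℝ
  hT : 1 ≤ T
  q : ℂ
  P : ℝ → ℂ
  G : ℝ → ℂ
  Q : ℝ → ℂ
  mP : Measurable P
  mG : Measurable G
  mQ : Measurable Q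
  cP : ContinuousOn P (Ici 0)
  cG : ContinuousOn G (Ici 0)
  dP : ∀ τ, 0 < τ → τ ≠ 1 → τ ≠ T → HasDerivAt P (Q τ) τ
  dG : ∀ τ, 0 < τ → τ ≠ 1 → τ ≠ T → HasDerivAt G (((α:ℂ)-1)*P τ - τ*Q τ) τ
  bQ : ∃ C, ∀ τ, 0 ≤ τ → τ ≤ T → ‖Q τ‖ ≤ C
  P3 : ∀ τ, T < τ → P τ = ((τ^(α-1) : ℝ) : ℂ) * ((α - q*(τ⁻¹:ℝ)) * exp (q*(τ⁻¹:ℝ)))
  G3 : ∀ τ, T < τ → G τ = ((τ^(α-1) : ℝ) : ℂ) * (q * exp (q*(τ⁻¹:ℝ)))
  Q3 : ∀ τ, T < τ → Q τ = ((τ^(α-2) : ℝ) : ℂ) *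
    ((α*(α-1) + (2-2*α)*(q*(τ⁻¹:ℝ)) + (q*(τ⁻¹:ℝ))^2) * exp (q*(τ⁻¹:ℝ)))
  ell : ∃ C, 1 ≤ C ∧ ∀ τ, 0 ≤ τ → 2*P τ + 4*τ*Q τ ≠ 0 ∧
    ‖-s*G τ/(2*P τ + 4*τ*Q τ)‖ ≤ C ∧ C⁻¹ ≤ (-s*G τ/(2*P τ + 4*τ*Q τ)).re

namespace Prof

variable {α : ℝ} (p : Prof α)

lemma ss : (p.s:ℂ)*p.s = 1 := by
  rcases p.hs with h | h <;> rw [h] <;> norm_num

lemma sn : ‖(p.s:ℂ)‖ = 1 := by
  rcases p.hs with h | h <;> rw [h] <;> norm_num

lemma T0 : 0 < p.T := lt_of_lt_of_le one_pos p.hT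

/-- bounds of the profile -/
lemma prof_bd (h0 : 0 < α) (h1 : α < 1) : ∃ C : ℝ, 1 ≤ C ∧ ∀ τ, 0 ≤ τ →
    ‖p.P τ‖ ≤ C * (1+τ)^(α-1) ∧ ‖p.G τ‖ ≤ C * (1+τ)^(α-1) ∧
    ‖2*p.P τ + 4*τ*p.Q τ‖ ≤ C * (1+τ)^(α-1) ∧ ‖((α:ℂ)-1)*p.P τ - τ*p.Q τ‖ ≤ C * (1+τ)^(α-2) := by
  obtain ⟨CQ, hCQ⟩ := p.bQ
  obtain ⟨CP, hCP⟩ := isCompact_Icc.exists_bound_of_continuousOn
    (p.cP.mono (Icc_subset_Ici_self : Icc 0 p.T ⊆ Ici 0))
  obtain ⟨CG, hCG⟩ := isCompact_Icc.exists_bound_of_continuousOn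
    (p.cG.mono (Icc_subset_Ici_self : Icc 0 p.T ⊆ Ici 0))
  have hT := p.hT
  have hCQ0 : 0 ≤ CQ := (norm_nonneg _).trans (hCQ 0 le_rfl (by linarith))
  have hCP0 : 0 ≤ CP := (norm_nonneg _).trans (hCP 0 ⟨le_rfl, by linarith⟩)
  have hCG0 : 0 ≤ CG := (norm_nonneg _).trans (hCG 0 ⟨le_rfl, by linarith⟩)
  set m : ℝ := (1+p.T)^(α-2) with hm
  have hm0 : 0 < m := Real.rpow_pos_of_pos (by linarith) _
  set n : ℝ := ‖p.q‖ with hn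
  have hn0 : 0 ≤ n := norm_nonneg _
  set C1 : ℝ := (2*CP + 4*p.T*CQ + CG)/m with hC1
  set C2 : ℝ := 4*(60*(1+n)^2*Real.exp n) with hC2
  have hC10 : 0 ≤ C1 := by positivity
  have hC20 : 0 ≤ C2 := by positivity
  refine ⟨1+C1+C2, by linarith, fun τ hτ => ?_⟩
  have hα : ‖(α:ℂ)‖ ≤ 1 := by rw [norm_real, Real.norm_eq_abs, abs_of_pos h0]; exact h1.le
  have hα1 : ‖(α:ℂ)-1‖ ≤ 1 := by
    rw [← ofReal_one, ← ofReal_sub, norm_real, Real.norm_eq_abs, abs_le]; constructor <;> linarith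
  by_cases hle : τ ≤ p.T
  · have a1 := hCP τ ⟨hτ, hle⟩
    have a2 := hCG τ ⟨hτ, hle⟩
    have a3 := hCQ τ hτ hle
    have e1 : m ≤ (1+τ)^(α-2) := Real.rpow_le_rpow_of_nonpos (by linarith) (by linarith) (by linarith)
    have e2 : (1+τ)^(α-2) ≤ (1+τ)^(α-1) :=
      Real.rpow_le_rpow_of_exponent_le (by linarith) (by linarith)
    have hCm : C1 * m = 2*CP + 4*p.T*CQ + CG := by rw [hC1]; field_simp
    have key1 : 2*CP + 4*p.T*CQ + CG ≤ (1+C1+C2)*(1+τ)^(α-2) := by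
      rw [← hCm]
      exact mul_le_mul (by linarith) e1 hm0.le (by linarith)
    have key2 : 2*CP + 4*p.T*CQ + CG ≤ (1+C1+C2)*(1+τ)^(α-1) :=
      key1.trans (mul_le_mul_of_nonneg_left e2 (by linarith))
    have hτQ : ‖(τ:ℂ)*p.Q τ‖ ≤ p.T*CQ := by
      rw [norm_mul, norm_real, Real.norm_eq_abs, abs_of_nonneg hτ]
      exact mul_le_mul hle a3 (norm_nonneg _) (by linarith)
    have hTC : 0 ≤ p.T*CQ := mul_nonneg (by linarith) hCQ0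
    refine ⟨by linarith, by linarith, ?_, ?_⟩
    · refine le_trans ?_ key2
      calc ‖2*p.P τ + 4*τ*p.Q τ‖ ≤ ‖2*p.P τ‖ + ‖4*((τ:ℂ)*p.Q τ)‖ := by
            rw [show (4:ℂ)*τ*p.Q τ = 4*((τ:ℂ)*p.Q τ) by ring]; exact norm_add_le _ _
        _ = 2*‖p.P τ‖ + 4*‖(τ:ℂ)*p.Q τ‖ := by rw [norm_mul, norm_mul 4]; norm_num
        _ ≤ _ := by linarith
    · refine le_trans ?_ key1
      calc ‖((α:ℂ)-1)*p.P τ - τ*p.Q τ‖ ≤ ‖((α:ℂ)-1)*p.P τ‖ + ‖τ*p.Q τ‖ := norm_sub_le _ _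
        _ ≤ 1*CP + p.T*CQ := by
            refine add_le_add ?_ hτQ
            rw [norm_mul]; exact mul_le_mul hα1 a1 (norm_nonneg _) zero_le_one
        _ ≤ _ := by linarith
  · have hlt : p.T < τ := not_le.mp hle
    have hτ1 : 1 ≤ τ := by linarith
    have hτ0 : 0 < τ := by linarith
    set z : ℂ := p.q*(τ⁻¹:ℝ) with hz
    have hzn : ‖z‖ ≤ n := by
      rw [hz, norm_mul, norm_real, Real.norm_eq_abs, abs_of_pos (inv_pos.mpr hτ0)]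
      exact mul_le_of_le_one_right hn0 (inv_le_one_of_one_le₀ hτ1)
    have hze : ‖exp z‖ ≤ Real.exp n := by
      rw [norm_exp]; exact Real.exp_le_exp.mpr ((re_le_norm z).trans hzn)
    have hE := (Real.exp_pos n).le
    have two : ∀ e : ℝ, -2 ≤ e → e ≤ 0 → τ^e ≤ 4*(1+τ)^e := by
      intro e he he'
      have f1 : (2*τ)^e ≤ (1+τ)^e := Real.rpow_le_rpow_of_nonpos (by linarith) (by linarith) he'
      rw [Real.mul_rpow (by norm_num) hτ] at f1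
      have f2 : (1/4:ℝ) ≤ 2^e := by
        have : (2:ℝ)^(-2:ℝ) ≤ 2^e := Real.rpow_le_rpow_of_exponent_le (by norm_num) he
        refine le_trans (le_of_eq ?_) this
        rw [show (-2:ℝ) = ((-2:ℤ):ℝ) by norm_num, Real.rpow_intCast]; norm_num
      have f3 : 0 ≤ τ^e := Real.rpow_nonneg hτ _
      nlinarith
    have t1 := two (α-1) (by linarith) (by linarith)
    have t2 := two (α-2) (by linarith) (by linarith)
    have g0 : ∀ (e : ℝ) (w : ℂ), τ^e ≤ 4*(1+τ)^e → ‖w‖ ≤ 60*(1+n)^2 →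
        ‖((τ^e : ℝ) : ℂ) * (w * exp z)‖ ≤ (1+C1+C2)*(1+τ)^e := by
      intro e w he hw
      have f3 : 0 ≤ τ^e := Real.rpow_nonneg hτ _
      have f4 : 0 ≤ (1+τ)^e := Real.rpow_nonneg (by linarith) _
      rw [norm_mul, norm_mul, norm_real, Real.norm_eq_abs, abs_of_nonneg f3]
      calc τ^e*(‖w‖*‖exp z‖) ≤ (4*(1+τ)^e)*((60*(1+n)^2)*Real.exp n) :=
            mul_le_mul he (mul_le_mul hw hze (norm_nonneg _) (by positivity)) (by positivity)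
              (by positivity)
        _ = C2*(1+τ)^e := by rw [hC2]; ring
        _ ≤ _ := mul_le_mul_of_nonneg_right (by linarith) f4
    have hτC : (τ:ℂ) ≠ 0 := by exact_mod_cast hτ0.ne'
    have tq : (τ:ℂ) * ((τ^(α-2) : ℝ) : ℂ) = ((τ^(α-1) : ℝ) : ℂ) := by
      rw [← ofReal_mul]; congr 1
      rw [show α-1 = 1+(α-2) by ring, Real.rpow_add hτ0, Real.rpow_one]
    have hz2 : ‖z^2‖ ≤ n^2 := by rw [norm_pow]; exact pow_le_pow_left₀ (norm_nonneg _) hzn 2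
    have hαr : ∀ r : ℝ, ‖((r:ℝ):ℂ)*z‖ ≤ |r| * n := by
      intro r
      rw [norm_mul, norm_real, Real.norm_eq_abs]
      exact mul_le_mul_of_nonneg_left hzn (abs_nonneg _)
    refine ⟨?_, ?_, ?_, ?_⟩
    · rw [p.P3 τ hlt]
      refine g0 _ _ t1 ?_
      calc ‖(α:ℂ) - z‖ ≤ 1 + n := (norm_sub_le _ _).trans (add_le_add hα hzn)
        _ ≤ _ := by nlinarith
    · rw [p.G3 τ hlt]
      refine g0 _ _ t1 ?_
      change n ≤ _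
      nlinarith
    · have : 2*p.P τ + 4*τ*p.Q τ = ((τ^(α-1) : ℝ) : ℂ) *
          ((((2*α*(2*α-1) : ℝ):ℂ) + ((6-8*α : ℝ):ℂ)*z + 4*z^2) * exp z) := by
        rw [p.P3 τ hlt, p.Q3 τ hlt, ← hz, ← tq]; push_cast; ring
      rw [this]
      refine g0 _ _ t1 ?_
      have b1 : ‖((2*α*(2*α-1) : ℝ):ℂ)‖ ≤ 2 := by
        rw [norm_real, Real.norm_eq_abs, abs_le]; constructor <;> nlinarith
      have b2 : ‖((6-8*α : ℝ):ℂ)*z‖ ≤ 6*n := by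
        refine (hαr _).trans (mul_le_mul_of_nonneg_right ?_ hn0)
        rw [abs_le]; constructor <;> linarith
      have b3 : ‖4*z^2‖ ≤ 4*n^2 := by rw [norm_mul]; norm_num; simpa using hz2
      calc _ ≤ 2 + 6*n + 4*n^2 := (norm_add_le _ _).trans
            (add_le_add ((norm_add_le _ _).trans (add_le_add b1 b2)) b3)
        _ ≤ _ := by nlinarith
    · have : ((α:ℂ)-1)*p.P τ - τ*p.Q τ = ((τ^(α-2) : ℝ) : ℂ) *
          ((p.q*(((α-1 : ℝ):ℂ) - z)) * exp z) := by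
        have hq : p.q = τ*z := by rw [hz]; push_cast; field_simp
        rw [p.P3 τ hlt, p.Q3 τ hlt, ← hz, ← tq, hq]; push_cast; ring
      rw [this]
      refine g0 _ _ t2 ?_
      rw [norm_mul]
      have b1 : ‖((α-1 : ℝ):ℂ) - z‖ ≤ 1 + n := by
        refine (norm_sub_le _ _).trans (add_le_add ?_ hzn)
        rw [norm_real, Real.norm_eq_abs, abs_le]; constructor <;> linarith
      calc _ ≤ n*(1+n) := mul_le_mul_of_nonneg_left b1 hn0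
        _ ≤ _ := by nlinarith

end Prof

end Pool.Agent.H18.PB
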