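import Pool.Agent.H18.PB.Int
import Pool.Graph.R_seed8.W787.PEres2
import Pool.Graph.R_seed8.H153R4.Pl
set_option autoImplicit false

/-! From a localised singular solution of the adjoint equation to the failure of the `L^p` bounds.
Adapted from the library modules PEfun2, PEdual, PEmain (where the exponent is `1/8`). -/

namespace Pool.Agent.H18.PB

open MeasureTheory Complex Set FourierTransform
open Pool.Agent.W787.PE
open scoped ENNReal NNReal ComplexConjugate InnerProductSpace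

/-- A localised solution of the adjoint equation which is singular at the origin. -/
structure Sol (δ : ℝ) where
  W : ℝ → ℝ → ℂ
  Wx : ℝ → ℝ → ℂ
  Wt : ℝ → ℝ → ℂ
  Fl : ℝ → ℝ → ℂ
  Flx : ℝ → ℝ → ℂ
  co : ℝ → ℝ → ℂ
  mW : Measurable (fun z : ℝ × ℝ => W z.1 z.2)
  mWx : Measurable (fun z : ℝ × ℝ => Wx z.1 z.2)
  mWt : Measurable (fun z : ℝ × ℝ => Wt z.1 z.2)
  mFl : Measurable (fun z : ℝ × ℝ => Fl z.1 z.2)
  mFlx : Measurable (fun z : ℝ × ℝ => Flx z.1 z.2)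
  mco : Measurable (fun z : ℝ × ℝ => co z.1 z.2)
  bd : ∃ C : ℝ, 0 ≤ C ∧ ∀ x t : ℝ, x ≠ 0 → t ≠ 0 →
    ‖W x t‖ ≤ C * (x^2+|t|)^(-(δ/2)) ∧ ‖Wx x t‖ ≤ C * (x^2+|t|)^(-((1+δ)/2)) ∧
    ‖Wt x t‖ ≤ C * (x^2+|t|)^(-((2+δ)/2)) ∧ ‖Fl x t‖ ≤ C * (x^2+|t|)^(-((1+δ)/2)) ∧
    ‖Flx x t‖ ≤ C * (x^2+|t|)^(-((2+δ)/2))
  fbd : ∃ C : ℝ, 0 ≤ C ∧ ∀ x t : ℝ, x ≠ 0 → t ≠ 0 → ‖W x t - Wt x t - Flx x t‖ ≤ C
  zx : ∀ x t : ℝ, 2 ≤ |x| → W x t = 0 ∧ Wx x t = 0 ∧ Wt x t = 0 ∧ Fl x t = 0 ∧ Flx x t = 0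
  zt : ∀ x t : ℝ, 2 ≤ |t| → W x t = 0 ∧ Wx x t = 0 ∧ Wt x t = 0 ∧ Fl x t = 0 ∧ Flx x t = 0
  cWx : ∀ t, t ≠ 0 → Continuous (fun x => W x t)
  dWx : ∀ t, t ≠ 0 → ∃ S : Set ℝ, S.Countable ∧ ∀ x, x ∉ S → HasDerivAt (fun x => W x t) (Wx x t) x
  cFx : ∀ t, t ≠ 0 → Continuous (fun x => Fl x t)
  dFx : ∀ t, t ≠ 0 → ∃ S : Set ℝ, S.Countable ∧
    ∀ x, x ∉ S → HasDerivAt (fun x => Fl x t) (Flx x t) x
  cWt : ∀ x, x ≠ 0 → Continuous (fun t => W x t)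
  dWt : ∀ x, x ≠ 0 → ∃ S : Set ℝ, S.Countable ∧ ∀ t, t ∉ S → HasDerivAt (fun t => W x t) (Wt x t) t
  eq : ∀ᵐ z : ℝ × ℝ, co z.1 z.2 * Wx z.1 z.2 = Fl z.1 z.2
  ell : ∃ C : ℝ, 1 ≤ C ∧ ∀ x t : ℝ, ‖co x t‖ ≤ C ∧ C⁻¹ ≤ (co x t).re
  low : ∃ c0 η ε0 : ℝ, 0 < c0 ∧ 0 < η ∧ 0 < ε0 ∧ ∀ ε x t : ℝ, 0 < ε → ε ≤ ε0 → ε ≤ x → x ≤ 2*ε →
    0 ≤ t → t ≤ η*ε^2 → c0 * ε^(-δ) ≤ (W x t).re

variable {δ : ℝ} (D : Sol δ)

namespace Sol

noncomputable def ff (x t : ℝ) : ℂ := D.W x t - D.Wt x t - D.Flx x t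

lemma mff : Measurable (fun z : ℝ × ℝ => D.ff z.1 z.2) := (D.mW.sub D.mWt).sub D.mFlx

lemma fzx (x t : ℝ) (h : 2 ≤ |x|) : D.ff x t = 0 := by
  obtain ⟨a, b, c, d, e⟩ := D.zx x t h
  rw [ff, a, c, e]; simp
lemma fzt (x t : ℝ) (h : 2 ≤ |t|) : D.ff x t = 0 := by
  obtain ⟨a, b, c, d, e⟩ := D.zt x t h
  rw [ff, a, c, e]; simp

variable (hδ : 0 < δ) (hδ' : δ < 1/2)

include hδ hδ' in
lemma W_i : Integrable (fun z : ℝ × ℝ => D.W z.1 z.2) := by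
  obtain ⟨C, hC, hb⟩ := D.bd
  exact memL1' _ D.mW.aestronglyMeasurable C (δ/2) hC (by linarith) (by linarith)
    (fun x t hx ht => (hb x t hx ht).1) (fun x t h => by
      rcases h with h | h
      · exact (D.zx _ _ h.le).1
      · exact (D.zt _ _ h.le).1)
include hδ hδ' in
lemma Wx_i : Integrable (fun z : ℝ × ℝ => D.Wx z.1 z.2) := by
  obtain ⟨C, hC, hb⟩ := D.bd
  exact memL1' _ D.mWx.aestronglyMeasurable C ((1+δ)/2) hC (by linarith) (by linarith)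
    (fun x t hx ht => (hb x t hx ht).2.1) (fun x t h => by
      rcases h with h | h
      · exact (D.zx _ _ h.le).2.1
      · exact (D.zt _ _ h.le).2.1)
include hδ hδ' in
lemma Wt_i : Integrable (fun z : ℝ × ℝ => D.Wt z.1 z.2) := by
  obtain ⟨C, hC, hb⟩ := D.bd
  exact memL1' _ D.mWt.aestronglyMeasurable C ((2+δ)/2) hC (by linarith) (by linarith)
    (fun x t hx ht => (hb x t hx ht).2.2.1) (fun x t h => by
      rcases h with h | h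
      · exact (D.zx _ _ h.le).2.2.1
      · exact (D.zt _ _ h.le).2.2.1)
include hδ hδ' in
lemma Fl_i : Integrable (fun z : ℝ × ℝ => D.Fl z.1 z.2) := by
  obtain ⟨C, hC, hb⟩ := D.bd
  exact memL1' _ D.mFl.aestronglyMeasurable C ((1+δ)/2) hC (by linarith) (by linarith)
    (fun x t hx ht => (hb x t hx ht).2.2.2.1) (fun x t h => by
      rcases h with h | h
      · exact (D.zx _ _ h.le).2.2.2.1
      · exact (D.zt _ _ h.le).2.2.2.1)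
include hδ hδ' in
lemma Flx_i : Integrable (fun z : ℝ × ℝ => D.Flx z.1 z.2) := by
  obtain ⟨C, hC, hb⟩ := D.bd
  exact memL1' _ D.mFlx.aestronglyMeasurable C ((2+δ)/2) hC (by linarith) (by linarith)
    (fun x t hx ht => (hb x t hx ht).2.2.2.2) (fun x t h => by
      rcases h with h | h
      · exact (D.zx _ _ h.le).2.2.2.2
      · exact (D.zt _ _ h.le).2.2.2.2)
include hδ hδ' in
lemma W_2 : MemLp (fun z : ℝ × ℝ => D.W z.1 z.2) 2 := by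
  obtain ⟨C, hC, hb⟩ := D.bd
  exact memL2' _ D.mW.aestronglyMeasurable C (δ/2) hC (by linarith) (by linarith)
    (fun x t hx ht => (hb x t hx ht).1) (fun x t h => by
      rcases h with h | h
      · exact (D.zx _ _ h.le).1
      · exact (D.zt _ _ h.le).1)
include hδ hδ' in
lemma Wx_2 : MemLp (fun z : ℝ × ℝ => D.Wx z.1 z.2) 2 := by
  obtain ⟨C, hC, hb⟩ := D.bd
  exact memL2' _ D.mWx.aestronglyMeasurable C ((1+δ)/2) hC (by linarith) (by linarith)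
    (fun x t hx ht => (hb x t hx ht).2.1) (fun x t h => by
      rcases h with h | h
      · exact (D.zx _ _ h.le).2.1
      · exact (D.zt _ _ h.le).2.1)
include hδ hδ' in
lemma Fl_2 : MemLp (fun z : ℝ × ℝ => D.Fl z.1 z.2) 2 := by
  obtain ⟨C, hC, hb⟩ := D.bd
  exact memL2' _ D.mFl.aestronglyMeasurable C ((1+δ)/2) hC (by linarith) (by linarith)
    (fun x t hx ht => (hb x t hx ht).2.2.2.1) (fun x t h => by
      rcases h with h | h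
      · exact (D.zx _ _ h.le).2.2.2.1
      · exact (D.zt _ _ h.le).2.2.2.1)
include hδ hδ' in
lemma ff_i : Integrable (fun z : ℝ × ℝ => D.ff z.1 z.2) :=
  ((D.W_i hδ hδ').sub (D.Wt_i hδ hδ')).sub (D.Flx_i hδ hδ')
lemma ff_2 : MemLp (fun z : ℝ × ℝ => D.ff z.1 z.2) 2 := by
  obtain ⟨C, hC, hb⟩ := D.fbd
  exact memL2' _ D.mff.aestronglyMeasurable C 0 hC (by norm_num) (by norm_num)
    (fun x t hx ht => by simpa [ff] using hb x t hx ht) (fun x t h => by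
      rcases h with h | h
      · exact D.fzx _ _ h.le
      · exact D.fzt _ _ h.le)

noncomputable def w' (v : Plane) : ℂ := D.W (v 0) (v 1)
noncomputable def wx' (v : Plane) : ℂ := D.Wx (v 0) (v 1)
noncomputable def fl' (v : Plane) : ℂ := D.Fl (v 0) (v 1)
noncomputable def f' (v : Plane) : ℂ := D.ff (v 0) (v 1)
noncomputable def co' (v : Plane) : ℂ := D.co (v 0) (v 1)

include hδ hδ' in
lemma w'_i : Integrable D.w' := int_lift (D.W_i hδ hδ')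
include hδ hδ' in
lemma wx'_i : Integrable D.wx' := int_lift (D.Wx_i hδ hδ')
include hδ hδ' in
lemma fl'_i : Integrable D.fl' := int_lift (D.Fl_i hδ hδ')
include hδ hδ' in
lemma f'_i : Integrable D.f' := int_lift (D.ff_i hδ hδ')
include hδ hδ' in
lemma w'_2 : MemLp D.w' 2 := memLp_lift (D.W_2 hδ hδ')
include hδ hδ' in
lemma wx'_2 : MemLp D.wx' 2 := memLp_lift (D.Wx_2 hδ hδ')
include hδ hδ' in
lemma fl'_2 : MemLp D.fl' 2 := memLp_lift (D.Fl_2 hδ hδ')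
lemma f'_2 : MemLp D.f' 2 := memLp_lift D.ff_2

include hδ hδ' in
lemma four_wx (ζ : Plane) : 𝓕 D.wx' ζ = symDx ζ * 𝓕 D.w' ζ := by
  have e1 := fourier_lift (fun z => D.Wx z.1 z.2) ζ
  have e2 := fourier_lift (fun z => D.W z.1 z.2) ζ
  have e3 := ibp_x' D.W D.Wx (ζ 0, ζ 1) (D.W_i hδ hδ') (D.Wx_i hδ hδ') D.cWx D.dWx
    (fun t x h => (D.zx x t h).1) (fun t x h => (D.zx x t h).2.1)
  change 𝓕 D.wx' ζ = _ at e1
  change 𝓕 D.w' ζ = _ at e2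
  rw [e1, e2, e3, symDx]

include hδ hδ' in
lemma four_f (ζ : Plane) : 𝓕 D.f' ζ = 𝓕 D.w' ζ - ((2*Real.pi*ζ 1 : ℝ) : ℂ)*I * 𝓕 D.w' ζ
    - symDx ζ * 𝓕 D.fl' ζ := by
  have e1 := fourier_lift (fun z => D.ff z.1 z.2) ζ
  have e2 := fourier_lift (fun z => D.W z.1 z.2) ζ
  have e3 := fourier_lift (fun z => D.Fl z.1 z.2) ζ
  have e4 := ibp_x' D.Fl D.Flx (ζ 0, ζ 1) (D.Fl_i hδ hδ') (D.Flx_i hδ hδ') D.cFx D.dFx
    (fun t x h => (D.zx x t h).2.2.2.1) (fun t x h => (D.zx x t h).2.2.2.2)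
  have e5 := ibp_t' D.W D.Wt (ζ 0, ζ 1) (D.W_i hδ hδ') (D.Wt_i hδ hδ') D.cWt D.dWt
    (fun x t h => (D.zt x t h).1) (fun x t h => (D.zt x t h).2.2.1)
  change 𝓕 D.f' ζ = _ at e1
  change 𝓕 D.w' ζ = _ at e2
  change 𝓕 D.fl' ζ = _ at e3
  rw [e1, e2, e3, symDx, ← e4, ← e5]
  have s1 := integral_sub (int_ex2 (D.W_i hδ hδ') (ζ 0, ζ 1)) (int_ex2 (D.Wt_i hδ hδ') (ζ 0, ζ 1))
  have s2 := integral_sub ((int_ex2 (D.W_i hδ hδ') (ζ 0, ζ 1)).sub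
    (int_ex2 (D.Wt_i hδ hδ') (ζ 0, ζ 1))) (int_ex2 (D.Flx_i hδ hδ') (ζ 0, ζ 1))
  rw [← s1]
  simp only [Pi.sub_apply] at s2
  rw [← s2]
  congr 1
  ext z
  simp only [ff]; ring

/-- the coefficient -/
noncomputable def bb (v : Plane) : ℂ := (starRingEnd ℂ) (D.co' v)

lemma bb_elliptic : Elliptic D.bb := by
  obtain ⟨C, hC, hb⟩ := D.ell
  refine ⟨?_, ⟨C, fun z => ?_⟩, C⁻¹, by positivity, fun z => ?_⟩
  · have : Measurable D.co' := D.mco.comp toProd.measurable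
    exact Complex.continuous_conj.measurable.comp this
  · rw [bb, RCLike.norm_conj]; exact (hb _ _).1
  · rw [bb, Complex.conj_re]; exact (hb _ _).2

noncomputable def wL : L2 := (D.w'_2 hδ hδ').toLp D.w'
noncomputable def wxL : L2 := (D.wx'_2 hδ hδ').toLp D.wx'
noncomputable def flL : L2 := (D.fl'_2 hδ hδ').toLp D.fl'
noncomputable def fL : L2 := D.f'_2.toLp D.f'

lemma hw : (FT (D.wL hδ hδ') : Plane → ℂ) =ᵐ[volume] 𝓕 D.w' :=
  Pool.Agent.H153R4.fourier_ae_eq D.w' (D.w'_i hδ hδ') (D.w'_2 hδ hδ')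
lemma hwx : (FT (D.wxL hδ hδ') : Plane → ℂ) =ᵐ[volume] 𝓕 D.wx' :=
  Pool.Agent.H153R4.fourier_ae_eq D.wx' (D.wx'_i hδ hδ') (D.wx'_2 hδ hδ')
lemma hfl : (FT (D.flL hδ hδ') : Plane → ℂ) =ᵐ[volume] 𝓕 D.fl' :=
  Pool.Agent.H153R4.fourier_ae_eq D.fl' (D.fl'_i hδ hδ') (D.fl'_2 hδ hδ')
include hδ hδ' in
lemma hf : (FT D.fL : Plane → ℂ) =ᵐ[volume] 𝓕 D.f' :=
  Pool.Agent.H153R4.fourier_ae_eq D.f' (D.f'_i hδ hδ') D.f'_2

lemma w_dx : InDom symDx (D.wL hδ hδ') ∧ mult symDx (D.wL hδ hδ') = D.wxL hδ hδ' := by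
  have h : (fun ζ => symDx ζ * (𝓕 (D.wL hδ hδ') : L2) ζ) =ᵐ[volume]
      (FT (D.wxL hδ hδ') : Plane → ℂ) := by
    filter_upwards [D.hw hδ hδ', D.hwx hδ hδ'] with z h1 h2
    rw [h2, D.four_wx hδ hδ', ← h1]; rfl
  have := mult_eq h
  refine ⟨this.1, this.2.trans ?_⟩
  exact FT.symm_apply_apply (D.wxL hδ hδ')

lemma w_dh : InDom symDh (D.wL hδ hδ') := by
  have hm : AEStronglyMeasurable (fun ζ => symDh ζ * (𝓕 (D.wL hδ hδ') : L2) ζ) volume :=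
    symDh_meas.aestronglyMeasurable.mul (Lp.aestronglyMeasurable _)
  refine (memLp_two_iff_integrable_sq_norm hm).mpr ?_
  have i1 := int_norm_sq (FT (D.wL hδ hδ'))
  have i2 := (int_inner (FT (D.wL hδ hδ')) (FT D.fL)).norm
  have i3 := (int_inner (FT (D.wxL hδ hδ')) (FT (D.flL hδ hδ'))).norm
  refine ((i1.add i2).add i3).mono' (hm.norm.pow 2) ?_
  filter_upwards [D.hw hδ hδ', D.hwx hδ hδ', D.hfl hδ hδ', D.hf hδ hδ'] with z h1 h2 h3 h4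
  have e1 : (𝓕 (D.wL hδ hδ') : L2) z = 𝓕 D.w' z := h1
  simp only [Pi.add_apply]
  have e0 : ‖‖symDh z * (𝓕 (D.wL hδ hδ') : L2) z‖^2‖ = |2*Real.pi*z 1| * ‖𝓕 D.w' z‖^2 := by
    rw [norm_pow, norm_norm, e1, norm_mul, symDh_norm, mul_pow, Real.sq_sqrt (abs_nonneg _)]
  rw [e0, h1, h2, h3, h4, norm_mul, norm_mul, RCLike.norm_conj, RCLike.norm_conj,
    D.four_wx hδ hδ' z, norm_mul]
  have e2 : ((2*Real.pi*z 1 : ℝ) : ℂ)*I * 𝓕 D.w' z = 𝓕 D.w' z - 𝓕 D.f' z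
      - symDx z * 𝓕 D.fl' z := by
    rw [D.four_f hδ hδ' z]; ring
  have e3 : |2*Real.pi*z 1| * ‖𝓕 D.w' z‖ = ‖((2*Real.pi*z 1 : ℝ) : ℂ)*I * 𝓕 D.w' z‖ := by
    rw [norm_mul, norm_mul, norm_I, mul_one, norm_real, Real.norm_eq_abs]
  calc |2*Real.pi*z 1| * ‖𝓕 D.w' z‖^2 = (|2*Real.pi*z 1| * ‖𝓕 D.w' z‖) * ‖𝓕 D.w' z‖ := by ring
    _ = ‖𝓕 D.w' z - 𝓕 D.f' z - symDx z * 𝓕 D.fl' z‖ * ‖𝓕 D.w' z‖ := by rw [e3, e2]
    _ ≤ (‖𝓕 D.w' z‖ + ‖𝓕 D.f' z‖ + ‖symDx z‖*‖𝓕 D.fl' z‖) * ‖𝓕 D.w' z‖ := by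
        refine mul_le_mul_of_nonneg_right ?_ (norm_nonneg _)
        refine (norm_sub_le _ _).trans (add_le_add (norm_sub_le _ _) ?_)
        rw [norm_mul]
    _ = _ := by ring

lemma wL_inE : InE (D.wL hδ hδ') := ⟨(D.w_dx hδ hδ').1, D.w_dh hδ hδ'⟩

lemma FT_mult {m : Plane → ℂ} {u : L2} (h : InDom m u) :
    (FT (mult m u) : Plane → ℂ) =ᵐ[volume] fun ζ => m ζ * (FT u) ζ := by
  have e : FT (mult m u) = (MemLp.toLp _ h : L2) := by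
    rw [mult, dif_pos h]; exact FT.apply_symm_apply _
  rw [e]
  exact h.coeFn_toLp

lemma bw : mul (symOf D.bb D.bb_elliptic).star (D.wxL hδ hδ') = D.flL hδ hδ' := by
  apply Lp.ext
  have hne : ∀ᵐ v : Plane, D.co (v 0) (v 1) * D.Wx (v 0) (v 1) = D.Fl (v 0) (v 1) := by
    have := toProd_mp.quasiMeasurePreserving.ae D.eq
    filter_upwards [this] with v hv
    rw [toProd_apply] at hv
    exact hv
  filter_upwards [mul_coe (symOf D.bb D.bb_elliptic).star (D.wxL hδ hδ'),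
    (D.wx'_2 hδ hδ').coeFn_toLp, (D.fl'_2 hδ hδ').coeFn_toLp, hne]
    with z h1 h2 h3 h4
  have e3 : D.flL hδ hδ' z = D.fl' z := h3
  have e2 : D.wxL hδ hδ' z = D.wx' z := h2
  rw [h1, e3, e2]
  simp only [Sym.star, symOf, bb, Complex.conj_conj]
  exact h4

lemma dual (y : L2) (hy : InE y) :
    (∫ z, y z * conj (D.wL hδ hδ' z)) + form D.bb y (D.wL hδ hδ') = ∫ z, y z * conj (D.fL z) := by
  have e0 : form D.bb y (D.wL hδ hδ') = form (symOf D.bb D.bb_elliptic).m y (D.wL hδ hδ') := rfl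
  have e1 : ⟪mult symDx (D.wL hδ hδ'), mul (symOf D.bb D.bb_elliptic) (mult symDx y)⟫_ℂ
      = ⟪D.flL hδ hδ', mult symDx y⟫_ℂ := by
    rw [(D.w_dx hδ hδ').2, ← D.bw hδ hδ', inner_mul_left']
    congr 1
    exact mul_congr (fun z => by simp [Sym.star]) _
  rw [e0, form_inner, e1, ← inner_eq, ← inner_eq, ← FT.inner_map_map (D.wL hδ hδ') y,
    ← FT.inner_map_map (mult symDh (D.wL hδ hδ')), ← FT.inner_map_map (D.flL hδ hδ'),
    ← FT.inner_map_map D.fL,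
    inner_eq, inner_eq, inner_eq, inner_eq]
  have j1 := int_inner (FT (D.wL hδ hδ')) (FT y)
  have j2 := int_inner (FT (mult symDh (D.wL hδ hδ'))) (FT (mult symH (mult symDh y)))
  have j3 := int_inner (FT (D.flL hδ hδ')) (FT (mult symDx y))
  have j4 : Integrable (fun a => (FT (mult symH (mult symDh y))) a *
      conj ((FT (mult symDh (D.wL hδ hδ'))) a)
    + (FT (mult symDx y)) a * conj ((FT (D.flL hδ hδ')) a)) := j2.add j3
  rw [← integral_add j2 j3, ← integral_add j1 j4]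
  apply integral_congr_ae
  have hH : (FT (mult symH (mult symDh y)) : Plane → ℂ) =ᵐ[volume]
      fun ζ => symH ζ * (FT (mult symDh y)) ζ := by
    rw [hh_of, FT.apply_symm_apply]
    exact mul_coe sH _
  filter_upwards [D.hw hδ hδ', D.hfl hδ hδ', D.hf hδ hδ', hH, FT_mult hy.2, FT_mult hy.1,
    FT_mult (D.w_dh hδ hδ')] with
    z h1 h3 h4 h5 h6 h7 h8
  rw [h5, h6, h7, h8, h1, h3, h4, D.four_f hδ hδ' z]
  simp only [map_sub, map_mul, conj_ofReal, conj_I]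
  have s1 : conj (symDh z) = symDh z := by simp [symDh]
  have s2 : symH z * symDh z * symDh z = ((2*Real.pi*z 1 : ℝ):ℂ) * I := by
    have q : (symDh z) * (symDh z) = ((|2*Real.pi*z 1| : ℝ) : ℂ) := by
      rw [symDh, ← ofReal_mul, Real.mul_self_sqrt (abs_nonneg _)]
    rw [mul_assoc, q, symH, mul_assoc, ← ofReal_mul, mul_comm]
    congr 2
    rw [abs_mul, abs_of_pos (by positivity : (0:ℝ) < 2*Real.pi)]
    by_cases h0 : z 1 = 0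
    · rw [h0]; simp
    · have : |z 1| ≠ 0 := abs_ne_zero.mpr h0
      field_simp
  have s3 : conj (symDx z) = - symDx z := by rw [symDx, map_mul, conj_ofReal, conj_I, mul_neg]
  rw [s1, s3]
  linear_combination (FT y) z * conj (𝓕 D.w' z) * s2

end Sol

end Pool.Agent.H18.PB
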