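import Pool.Agent.H18.PB.Prof
set_option autoImplicit false

/-! Profiles from three pieces. -/

namespace Pool.Agent.H18.PB

open Complex Set Filter
open scoped Topology ComplexConjugate

noncomputable def g3 (T : ℝ) (f1 f2 f3 : ℝ → ℂ) (τ : ℝ) : ℂ :=
  if τ ≤ 1 then f1 τ else if τ ≤ T then f2 τ else f3 τ

lemma g3_1 {T : ℝ} {f1 f2 f3 : ℝ → ℂ} {τ : ℝ} (h : τ ≤ 1) : g3 T f1 f2 f3 τ = f1 τ := by
  rw [g3, if_pos h]
lemma g3_2 {T : ℝ} {f1 f2 f3 : ℝ → ℂ} {τ : ℝ} (h : 1 < τ) (h' : τ ≤ T) :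
    g3 T f1 f2 f3 τ = f2 τ := by
  rw [g3, if_neg (not_le.mpr h), if_pos h']
lemma g3_3 {T : ℝ} {f1 f2 f3 : ℝ → ℂ} {τ : ℝ} (hT : 1 < T) (h : T < τ) :
    g3 T f1 f2 f3 τ = f3 τ := by
  rw [g3, if_neg (not_le.mpr (hT.trans h)), if_neg (not_le.mpr h)]

lemma g3_m {T : ℝ} {f1 f2 f3 : ℝ → ℂ} (h1 : Measurable f1) (h2 : Measurable f2)
    (h3 : Measurable f3) : Measurable (g3 T f1 f2 f3) :=
  Measurable.ite measurableSet_Iic h1 (Measurable.ite measurableSet_Iic h2 h3)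

lemma g3_c {T : ℝ} (hT : 1 < T) {f1 f2 f3 : ℝ → ℂ} (h1 : ContinuousOn f1 (Icc 0 1))
    (h2 : ContinuousOn f2 (Icc 1 T)) (h3 : ContinuousOn f3 (Ici T)) (e1 : f1 1 = f2 1)
    (e2 : f2 T = f3 T) : ContinuousOn (g3 T f1 f2 f3) (Ici 0) := by
  have s : (Ici 0 : Set ℝ) = Icc 0 1 ∪ (Icc 1 T ∪ Ici T) := by
    ext x
    simp only [mem_Ici, mem_union, mem_Icc]
    constructor
    · intro h
      by_cases a : x ≤ 1
      · left; exact ⟨h, a⟩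
      · by_cases b : x ≤ T
        · right; left; exact ⟨(not_le.mp a).le, b⟩
        · right; right; exact (not_le.mp b).le
    · rintro (h | h | h)
      · exact h.1
      · linarith [h.1]
      · linarith
  rw [s]
  have c1 : ContinuousOn (g3 T f1 f2 f3) (Icc 0 1) := h1.congr fun x hx => g3_1 hx.2
  have c2 : ContinuousOn (g3 T f1 f2 f3) (Icc 1 T) := h2.congr fun x hx => by
    rcases hx.1.eq_or_lt with h | h
    · rw [← h, g3_1 le_rfl, e1]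
    · exact g3_2 h hx.2
  have c3 : ContinuousOn (g3 T f1 f2 f3) (Ici T) := h3.congr fun x hx => by
    rcases (mem_Ici.mp hx).eq_or_lt with h | h
    · rw [← h, g3_2 hT le_rfl, e2]
    · exact g3_3 hT h
  exact c1.union_of_isClosed (c2.union_of_isClosed c3 isClosed_Icc isClosed_Ici) isClosed_Icc
    (isClosed_Icc.union isClosed_Ici)

lemma g3_d {T : ℝ} (hT : 1 < T) {f1 f2 f3 : ℝ → ℂ} {D : ℂ} {τ : ℝ} (n1 : τ ≠ 1) (nT : τ ≠ T)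
    (h1 : τ < 1 → HasDerivAt f1 D τ) (h2 : 1 < τ → τ < T → HasDerivAt f2 D τ)
    (h3 : T < τ → HasDerivAt f3 D τ) : HasDerivAt (g3 T f1 f2 f3) D τ := by
  rcases lt_or_gt_of_ne n1 with a | a
  · refine (h1 a).congr_of_eventuallyEq ?_
    filter_upwards [gt_mem_nhds a] with y hy using g3_1 (le_of_lt hy)
  · rcases lt_or_gt_of_ne nT with b | b
    · refine (h2 a b).congr_of_eventuallyEq ?_
      filter_upwards [gt_mem_nhds b, lt_mem_nhds a] with y hy hy' using g3_2 hy' (le_of_lt hy)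
    · refine (h3 b).congr_of_eventuallyEq ?_
      filter_upwards [lt_mem_nhds b] with y hy using g3_3 hT hy

lemma ellbd (f : ℝ → ℂ) {a b : ℝ} (hab : a ≤ b) (hf : ContinuousOn f (Icc a b))
    (hpos : ∀ x ∈ Icc a b, 0 < (f x).re) :
    ∃ C : ℝ, 1 ≤ C ∧ ∀ x ∈ Icc a b, ‖f x‖ ≤ C ∧ C⁻¹ ≤ (f x).re := by
  obtain ⟨C1, hC1⟩ := isCompact_Icc.exists_bound_of_continuousOn hf
  obtain ⟨x0, hx0, hmin⟩ := isCompact_Icc.exists_isMinOn (nonempty_Icc.mpr hab)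
    (Complex.continuous_re.comp_continuousOn hf)
  have hm : 0 < (f x0).re := hpos x0 hx0
  have hi : 0 < ((f x0).re)⁻¹ := inv_pos.mpr hm
  have hC0 : 0 ≤ C1 := (norm_nonneg _).trans (hC1 a ⟨le_rfl, hab⟩)
  refine ⟨1+C1+((f x0).re)⁻¹, by linarith, fun x hx => ⟨by linarith [hC1 x hx], ?_⟩⟩
  have h1 : (f x0).re ≤ (f x).re := hmin hx
  refine le_trans ?_ h1
  rw [inv_le_comm₀ (by linarith) hm]
  linarith

lemma re_pos {a b : ℂ} (h : 0 < (a*conj b).re) : b ≠ 0 ∧ 0 < (a/b).re := by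
  have hb : b ≠ 0 := by
    intro h0; rw [h0] at h; simp at h
  refine ⟨hb, ?_⟩
  have hn : 0 < normSq b := normSq_pos.mpr hb
  rw [div_re]
  rw [mul_re, conj_re, conj_im] at h
  have : a.re*b.re/normSq b + a.im*b.im/normSq b = (a.re*b.re - a.im*(-b.im))/normSq b := by ring
  rw [this]
  exact div_pos h hn

variable {α s T : ℝ}

/-- region III functions -/
noncomputable def P3f (α : ℝ) (q : ℂ) (τ : ℝ) : ℂ :=
  ((τ^(α-1) : ℝ) : ℂ) * ((α - q*(τ⁻¹:ℝ)) * exp (q*(τ⁻¹:ℝ)))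
noncomputable def G3f (α : ℝ) (q : ℂ) (τ : ℝ) : ℂ :=
  ((τ^(α-1) : ℝ) : ℂ) * (q * exp (q*(τ⁻¹:ℝ)))
noncomputable def Q3f (α : ℝ) (q : ℂ) (τ : ℝ) : ℂ :=
  ((τ^(α-2) : ℝ) : ℂ) *
    ((α*(α-1) + (2-2*α)*(q*(τ⁻¹:ℝ)) + (q*(τ⁻¹:ℝ))^2) * exp (q*(τ⁻¹:ℝ)))

lemma P3f_m (q : ℂ) : Measurable (P3f α q) := by
  have h1 : Measurable fun τ : ℝ => ((τ^(α-1) : ℝ) : ℂ) :=
    Complex.measurable_ofReal.comp (measurable_id.pow_const _)
  unfold P3f; exact h1.mul (by fun_prop)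
lemma G3f_m (q : ℂ) : Measurable (G3f α q) := by
  have h1 : Measurable fun τ : ℝ => ((τ^(α-1) : ℝ) : ℂ) :=
    Complex.measurable_ofReal.comp (measurable_id.pow_const _)
  unfold G3f; exact h1.mul (by fun_prop)
lemma Q3f_m (q : ℂ) : Measurable (Q3f α q) := by
  have h1 : Measurable fun τ : ℝ => ((τ^(α-2) : ℝ) : ℂ) :=
    Complex.measurable_ofReal.comp (measurable_id.pow_const _)
  unfold Q3f; exact h1.mul (by fun_prop)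

lemma d_rp {τ : ℝ} (hτ : 0 < τ) (e : ℝ) :
    HasDerivAt (fun τ : ℝ => ((τ^e : ℝ) : ℂ)) (((e*τ^(e-1) : ℝ)) : ℂ) τ :=
  (Real.hasDerivAt_rpow_const (Or.inl hτ.ne')).ofReal_comp

lemma d_inv {τ : ℝ} (hτ : 0 < τ) :
    HasDerivAt (fun τ : ℝ => ((τ⁻¹ : ℝ) : ℂ)) (-((τ⁻¹:ℝ):ℂ)^2) τ := by
  have := (hasDerivAt_inv hτ.ne').ofReal_comp
  refine this.congr_deriv ?_
  push_cast; rw [inv_pow]

lemma d_exp {τ : ℝ} (hτ : 0 < τ) (q : ℂ) :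
    HasDerivAt (fun τ : ℝ => exp (q*(τ⁻¹:ℝ))) (exp (q*(τ⁻¹:ℝ)) * (q*(-((τ⁻¹:ℝ):ℂ)^2))) τ :=
  ((d_inv hτ).const_mul q).cexp

lemma rp_step {τ : ℝ} (hτ : 0 < τ) (e : ℝ) : ((τ^e : ℝ) : ℂ) = ((τ^(e+1) : ℝ) : ℂ) * ((τ⁻¹:ℝ):ℂ) := by
  rw [← ofReal_mul]; congr 1
  rw [Real.rpow_add hτ, Real.rpow_one, mul_assoc, mul_inv_cancel₀ hτ.ne', mul_one]

lemma P3f_d {τ : ℝ} (hτ : 0 < τ) (q : ℂ) : HasDerivAt (P3f α q) (Q3f α q τ) τ := by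
  have h := (d_rp hτ (α-1)).mul ((((d_inv hτ).const_mul q).const_sub (α:ℂ)).mul (d_exp hτ q))
  refine h.congr_deriv ?_
  rw [Q3f, show α-1-1 = α-2 by ring]
  have e : ((τ^(α-1) : ℝ) : ℂ) * ((τ⁻¹:ℝ):ℂ) = ((τ^(α-2) : ℝ) : ℂ) := by
    rw [rp_step hτ (α-2)]; congr 3; ring
  simp only [Pi.mul_apply, Pi.sub_apply]
  rw [← e]
  push_cast
  rw [show ((τ^(α-2) : ℝ) : ℂ) = ((τ^(α-1) : ℝ) : ℂ) * ((τ⁻¹:ℝ):ℂ) from e.symm]
  push_cast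
  ring

lemma G3f_d {τ : ℝ} (hτ : 0 < τ) (q : ℂ) :
    HasDerivAt (G3f α q) (((α:ℂ)-1)*P3f α q τ - τ*Q3f α q τ) τ := by
  have h := (d_rp hτ (α-1)).mul ((d_exp hτ q).const_mul q)
  refine h.congr_deriv ?_
  have hτC : (τ:ℂ) ≠ 0 := by exact_mod_cast hτ.ne'
  have e : ((τ^(α-1) : ℝ) : ℂ) * ((τ⁻¹:ℝ):ℂ) = ((τ^(α-2) : ℝ) : ℂ) := by
    rw [rp_step hτ (α-2)]; congr 3; ring
  have e2 : (τ:ℂ) * ((τ^(α-2) : ℝ) : ℂ) = ((τ^(α-1) : ℝ) : ℂ) := by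
    rw [← e]; push_cast; field_simp
  rw [Q3f, P3f, show α-1-1 = α-2 by ring, ← mul_assoc (τ:ℂ), e2]
  push_cast
  rw [← e]
  push_cast
  ring

theorem mkProf (h0 : 0 < α) (h1 : α < 1/2) (hs : s = 1 ∨ s = -1) (hT : 1 < T) (w : ℂ)
    (hw1 : 1+w ≠ 0) (Zh μ μ1 : ℝ → ℂ) (mZ : Measurable Zh) (mμ : Measurable μ)
    (mμ1 : Measurable μ1)
    (dZ : ∀ τ : ℝ, 0 < τ → HasDerivAt Zh ((μ τ + 2*α)*Zh τ/(2*τ)) τ)
    (dμ : ∀ τ : ℝ, 0 < τ → HasDerivAt μ (μ1 τ) τ)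
    (cμ1 : ContinuousOn μ1 (Ioi 0)) (Zne : ∀ τ : ℝ, 0 < τ → Zh τ ≠ 0)
    (hm1 : μ 1 = 2*w/(1+w) - 2*α) (q : ℂ) (hmT : μ T = -2*q/T)
    (eI : ∀ τ ∈ Icc (0:ℝ) 1, 0 < (-s*(α-(1-α)*w*τ)*conj (2*w)).re)
    (eII : ∀ τ ∈ Icc 1 T, 0 < (s*μ τ*τ*conj (2*(2*τ*μ1 τ + (μ τ+2*α)*(μ τ + 2*α-1)))).re)
    (eIII : ∀ l ∈ Icc 0 T⁻¹, 0 < (-s*q*conj (2*α*(2*α-1) + ((6-8*α : ℝ):ℂ)*q*((l:ℝ):ℂ)
      + 4*q^2*((l:ℝ):ℂ)^2)).re) :
    ∃ p : Prof α, p.s = s := by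
  have hT0 : 0 < T := by linarith
  have hTC : (T:ℂ) ≠ 0 := by exact_mod_cast hT0.ne'
  set k : ℂ := ((T^α : ℝ) : ℂ)*exp (q*(T⁻¹:ℝ))/Zh T with hk
  have hk0 : k ≠ 0 := by
    have : ((T^α : ℝ) : ℂ) ≠ 0 := by exact_mod_cast (Real.rpow_pos_of_pos hT0 _).ne'
    exact div_ne_zero (mul_ne_zero this (exp_ne_zero _)) (Zne T hT0)
  have hkT : k*Zh T = ((T^α : ℝ) : ℂ)*exp (q*(T⁻¹:ℝ)) := by
    rw [hk]; field_simp [Zne T hT0]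
  set N : ℂ := k*Zh 1/(1+w) with hN
  have hN0 : N ≠ 0 := div_ne_zero (mul_ne_zero hk0 (Zne 1 one_pos)) hw1
  have hN1 : N*(1+w) = k*Zh 1 := by rw [hN]; field_simp
  set P1 : ℝ → ℂ := fun _ => N*w with hP1
  set P2 : ℝ → ℂ := fun τ => (μ τ + 2*α)*(k*Zh τ)/(2*τ) with hP2
  set G1 : ℝ → ℂ := fun τ => N*(α-(1-α)*w*τ) with hG1
  set G2 : ℝ → ℂ := fun τ => -μ τ*(k*Zh τ)/2 with hG2
  set Q1 : ℝ → ℂ := fun _ => 0 with hQ1
  set Q2 : ℝ → ℂ := fun τ => (k*Zh τ)*(2*τ*μ1 τ + (μ τ+2*α)*(μ τ + 2*α-1) - μ τ - 2*α)/(4*τ^2)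
    with hQ2
  have cZ : ∀ τ : ℝ, 0 < τ → ContinuousAt Zh τ := fun τ h => (dZ τ h).continuousAt
  have cμ : ∀ τ : ℝ, 0 < τ → ContinuousAt μ τ := fun τ h => (dμ τ h).continuousAt
  have cμ1' : ∀ τ : ℝ, 0 < τ → ContinuousAt μ1 τ := fun τ h => cμ1.continuousAt (Ioi_mem_nhds h)
  have cτ : ∀ τ : ℝ, ContinuousAt (fun τ : ℝ => (τ:ℂ)) τ := fun τ =>
    Complex.continuous_ofReal.continuousAt
  have dP2 : ∀ τ : ℝ, 0 < τ → HasDerivAt P2 (Q2 τ) τ := by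
    intro τ hτ
    have hτC : (τ:ℂ) ≠ 0 := by exact_mod_cast hτ.ne'
    have hid : HasDerivAt (fun τ : ℝ => 2*(τ:ℂ)) 2 τ := by
      have := ((hasDerivAt_id τ).ofReal_comp).const_mul (2:ℂ)
      simpa using this
    have h := (((dμ τ hτ).add_const (2*(α:ℂ))).mul ((dZ τ hτ).const_mul k)).div hid
      (mul_ne_zero two_ne_zero hτC)
    refine h.congr_deriv ?_
    rw [hQ2]
    simp only [Pi.mul_apply]
    field_simp
    ring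
  have dG2 : ∀ τ : ℝ, 0 < τ → HasDerivAt G2 (((α:ℂ)-1)*P2 τ - τ*Q2 τ) τ := by
    intro τ hτ
    have hτC : (τ:ℂ) ≠ 0 := by exact_mod_cast hτ.ne'
    have h := (((dμ τ hτ).neg).mul ((dZ τ hτ).const_mul k)).div_const 2
    refine h.congr_deriv ?_
    rw [hP2, hQ2]
    simp only [Pi.neg_apply]
    field_simp
    ring
  have eT1 : ((T^(α-1) : ℝ) : ℂ) * T = ((T^α : ℝ) : ℂ) := by
    rw [← ofReal_mul]; congr 1
    rw [← Real.rpow_add_one hT0.ne']; congr 1; ring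
  have jP1 : P1 1 = P2 1 := by
    simp only [hP1, hP2]
    rw [hm1, ← hN1]; push_cast; field_simp; ring
  have jP2 : P2 T = P3f α q T := by
    simp only [hP2]
    rw [hmT, hkT, P3f, ← eT1]; push_cast; field_simp; ring
  have jG1 : G1 1 = G2 1 := by
    simp only [hG1, hG2]
    rw [hm1, ← hN1]; push_cast; field_simp; ring
  have jG2 : G2 T = G3f α q T := by
    simp only [hG2]
    rw [hmT, hkT, G3f, ← eT1]; push_cast; field_simp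
  have hcQ2 : ContinuousOn Q2 (Icc 1 T) := by
    intro τ hτ
    have hτ0 : 0 < τ := by linarith [hτ.1]
    have hτC : (τ:ℂ) ≠ 0 := by exact_mod_cast hτ0.ne'
    apply ContinuousAt.continuousWithinAt
    have a := cZ τ hτ0
    have b := cμ τ hτ0
    have c := cμ1' τ hτ0
    have d := cτ τ
    refine ContinuousAt.div ?_ (by fun_prop) (mul_ne_zero (by norm_num) (pow_ne_zero 2 hτC))
    fun_prop
  obtain ⟨CQ, hCQ⟩ := isCompact_Icc.exists_bound_of_continuousOn hcQ2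
  have hCQ0 : 0 ≤ CQ := (norm_nonneg _).trans (hCQ 1 ⟨le_rfl, hT.le⟩)
  have hw0 : w ≠ 0 := by
    intro h
    have := eI 0 ⟨le_rfl, zero_le_one⟩
    rw [h] at this; simp at this
  have ne1 : ∀ τ ∈ Icc (0:ℝ) 1, (2*w:ℂ) ≠ 0 := fun τ hτ => (re_pos (eI τ hτ)).1
  have ne2 : ∀ τ ∈ Icc 1 T, (2*(2*τ*μ1 τ + (μ τ+2*α)*(μ τ + 2*α-1)):ℂ) ≠ 0 :=
    fun τ hτ => (re_pos (eII τ hτ)).1
  have ne3 : ∀ l ∈ Icc 0 T⁻¹, (2*α*(2*α-1) + ((6-8*α : ℝ):ℂ)*q*((l:ℝ):ℂ)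
      + 4*q^2*((l:ℝ):ℂ)^2 : ℂ) ≠ 0 := fun l hl => (re_pos (eIII l hl)).1
  obtain ⟨C1, hC1, b1⟩ := ellbd (fun τ : ℝ => -s*(α-(1-α)*w*τ)/(2*w)) zero_le_one
    (by apply Continuous.continuousOn; fun_prop) (fun τ hτ => (re_pos (eI τ hτ)).2)
  obtain ⟨C2, hC2, b2⟩ := ellbd
    (fun τ : ℝ => s*μ τ*τ/(2*(2*τ*μ1 τ + (μ τ+2*α)*(μ τ + 2*α-1)))) hT.le
    (by
      intro τ hτ
      have hτ0 : 0 < τ := by linarith [hτ.1]
      apply ContinuousAt.continuousWithinAt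
      have b := cμ τ hτ0
      have c := cμ1' τ hτ0
      have d := cτ τ
      refine ContinuousAt.div (by fun_prop) (by fun_prop) (ne2 τ hτ))
    (fun τ hτ => (re_pos (eII τ hτ)).2)
  obtain ⟨C3, hC3, b3⟩ := ellbd
    (fun l : ℝ => -s*q/(2*α*(2*α-1) + ((6-8*α : ℝ):ℂ)*q*((l:ℝ):ℂ)
      + 4*q^2*((l:ℝ):ℂ)^2)) (a := 0) (b := T⁻¹) (by positivity)
    (by
      intro l hl
      apply ContinuousAt.continuousWithinAt
      have d := cτ l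
      refine ContinuousAt.div (by fun_prop) (by fun_prop) (ne3 l hl))
    (fun l hl => (re_pos (eIII l hl)).2)
  have hell : ∀ τ : ℝ, 0 ≤ τ →
      2*g3 T P1 P2 (P3f α q) τ + 4*τ*g3 T Q1 Q2 (Q3f α q) τ ≠ 0 ∧
      ‖-s*g3 T G1 G2 (G3f α q) τ/(2*g3 T P1 P2 (P3f α q) τ + 4*τ*g3 T Q1 Q2 (Q3f α q) τ)‖
        ≤ C1+C2+C3 ∧
      (C1+C2+C3)⁻¹ ≤ (-s*g3 T G1 G2 (G3f α q) τ/(2*g3 T P1 P2 (P3f α q) τ +
        4*τ*g3 T Q1 Q2 (Q3f α q) τ)).re := by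
    intro τ hτ
    have fin : ∀ (C : ℝ) (a D c : ℂ), 1 ≤ C → C ≤ C1+C2+C3 → D ≠ 0 → a/D = c →
        (‖c‖ ≤ C ∧ C⁻¹ ≤ c.re) → D ≠ 0 ∧ ‖a/D‖ ≤ C1+C2+C3 ∧ (C1+C2+C3)⁻¹ ≤ (a/D).re := by
      intro C a D c hC hCC hD he hb
      rw [he]
      exact ⟨hD, hb.1.trans hCC, le_trans (inv_anti₀ (by linarith) hCC) hb.2⟩
    rcases le_or_gt τ 1 with a | a
    · rw [g3_1 a, g3_1 a, g3_1 a]
      have hD : (2*P1 τ + 4*τ*Q1 τ : ℂ) = 2*(N*w) := by simp only [hP1, hQ1]; ring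
      rw [hD]
      refine fin C1 _ _ _ hC1 (by linarith) (mul_ne_zero two_ne_zero (mul_ne_zero hN0 hw0)) ?_
        (b1 τ ⟨hτ, a⟩)
      simp only [hG1]
      field_simp
    · have hτ0 : 0 < τ := by linarith
      have hτC : (τ:ℂ) ≠ 0 := by exact_mod_cast hτ0.ne'
      rcases le_or_gt τ T with b | b
      · rw [g3_2 a b, g3_2 a b, g3_2 a b]
        have hn := ne2 τ ⟨a.le, b⟩
        have hn' := right_ne_zero_of_mul hn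
        have hZ := Zne τ hτ0
        have hD : (2*P2 τ + 4*τ*Q2 τ : ℂ) =
            k*Zh τ*(2*τ*μ1 τ + (μ τ+2*α)*(μ τ + 2*α-1))/τ := by
          simp only [hP2, hQ2]; field_simp; ring
        rw [hD]
        refine fin C2 _ _ _ hC2 (by linarith)
          (div_ne_zero (mul_ne_zero (mul_ne_zero hk0 hZ) hn') hτC) ?_ (b2 τ ⟨a.le, b⟩)
        simp only [hG2]
        generalize (2*τ*μ1 τ + (μ τ+2*α)*(μ τ + 2*α-1) : ℂ) = Y at hn' ⊢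
        field_simp
      · rw [g3_3 hT b, g3_3 hT b, g3_3 hT b]
        have hl : τ⁻¹ ∈ Icc 0 T⁻¹ := ⟨by positivity, inv_anti₀ hT0 b.le⟩
        have hn := ne3 _ hl
        have h1' : ((τ^(α-1) : ℝ) : ℂ) ≠ 0 := by exact_mod_cast (Real.rpow_pos_of_pos hτ0 _).ne'
        have h2' := exp_ne_zero (q*(τ⁻¹:ℝ))
        have tq : (τ:ℂ) * ((τ^(α-2) : ℝ) : ℂ) = ((τ^(α-1) : ℝ) : ℂ) := by
          rw [← ofReal_mul]; congr 1
          rw [show α-1 = 1+(α-2) by ring, Real.rpow_add hτ0, Real.rpow_one]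
        have hD : (2*P3f α q τ + 4*τ*Q3f α q τ : ℂ) = ((τ^(α-1) : ℝ) : ℂ) * exp (q*(τ⁻¹:ℝ)) *
            (2*α*(2*α-1) + ((6-8*α : ℝ):ℂ)*q*((τ⁻¹:ℝ):ℂ) + 4*q^2*((τ⁻¹:ℝ):ℂ)^2) := by
          rw [P3f, Q3f, ← tq]; push_cast; ring
        rw [hD]
        refine fin C3 _ _ _ hC3 (by linarith)
          (mul_ne_zero (mul_ne_zero h1' h2') hn) ?_ (b3 _ hl)
        rw [G3f]
        generalize (2*α*(2*α-1) + ((6-8*α : ℝ):ℂ)*q*((τ⁻¹:ℝ):ℂ) + 4*q^2*((τ⁻¹:ℝ):ℂ)^2 : ℂ) = Y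
          at hn ⊢
        field_simp
  refine ⟨⟨s, hs, T, hT.le, q, g3 T P1 P2 (P3f α q), g3 T G1 G2 (G3f α q), g3 T Q1 Q2 (Q3f α q),
    g3_m measurable_const ?_ (P3f_m q), g3_m ?_ ?_ (G3f_m q), g3_m measurable_const ?_ (Q3f_m q),
    ?_, ?_, ?_, ?_, ?_, fun τ h => g3_3 hT h, fun τ h => g3_3 hT h, fun τ h => g3_3 hT h,
    ⟨C1+C2+C3, by linarith, hell⟩⟩, rfl⟩
  · exact ((mμ.add_const _).mul (mZ.const_mul k)).div (by fun_prop)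
  · simp only [hG1]; fun_prop
  · exact (mμ.neg.mul (mZ.const_mul k)).div_const _
  · simp only [hQ2]; fun_prop
  · exact g3_c hT continuousOn_const
      (fun τ hτ => (dP2 τ (by linarith [hτ.1])).continuousAt.continuousWithinAt)
      (fun τ hτ => (P3f_d (lt_of_lt_of_le hT0 hτ) q).continuousAt.continuousWithinAt) jP1 jP2
  · refine g3_c hT ?_
      (fun τ hτ => (dG2 τ (by linarith [hτ.1])).continuousAt.continuousWithinAt)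
      (fun τ hτ => (G3f_d (lt_of_lt_of_le hT0 hτ) q).continuousAt.continuousWithinAt) jG1 jG2
    simp only [hG1]; apply Continuous.continuousOn; fun_prop
  · intro τ hτ n1 nT
    refine g3_d hT n1 nT (fun a => ?_) (fun a b => ?_) (fun b => ?_)
    · rw [g3_1 a.le]; exact hasDerivAt_const _ _
    · rw [g3_2 a b.le]; exact dP2 τ hτ
    · rw [g3_3 hT b]; exact P3f_d hτ q
  · intro τ hτ n1 nT
    refine g3_d hT n1 nT (fun a => ?_) (fun a b => ?_) (fun b => ?_)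
    · rw [g3_1 a.le, g3_1 a.le]
      have hid : HasDerivAt (fun τ : ℝ => (τ:ℂ)) 1 τ := by
        have := (hasDerivAt_id τ).ofReal_comp
        simpa using this
      have := ((hid.const_mul ((1-α)*w:ℂ)).const_sub (α:ℂ)).const_mul N
      refine this.congr_deriv ?_
      simp only [hP1, hQ1]; ring
    · rw [g3_2 a b.le, g3_2 a b.le]; exact dG2 τ hτ
    · rw [g3_3 hT b, g3_3 hT b]; exact G3f_d hτ q
  · refine ⟨CQ, fun τ h1 h2 => ?_⟩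
    rcases le_or_gt τ 1 with a | a
    · rw [g3_1 a]; simp only [hQ1, norm_zero]; exact hCQ0
    · rw [g3_2 a h2]; exact hCQ τ ⟨a.le, h2⟩

end Pool.Agent.H18.PB
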